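import Pool.Agent.P8H34.Cone

/-!
# The cone conjecture for quotients by finite groups
-/

set_option autoImplicit false
set_option linter.overlappingInstances false
set_option linter.unusedSectionVars false

open FF Pool.Agent.W602.GT Pool.Agent.Y172 Pool.Agent.R887
open Pool.Agent.N110 Pool.Agent.N110.CC Pool.Agent.N492.PA Pool.Agent.N110.NV
open Pool.Agent.N165.KM (IntL Sandwich HasFD interior_sub interior_add_mem interior_smul_mem
  exists_cdata)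
open Pool.Agent.Y167 (cone cone_image cone_ind zero_mem_cone mem_cone_self cone_add cone_smul
  cone_mono Cp)

namespace Pool.Agent.P8H34

section

variable {K K' : Type} [Field K] [Algebra ℂ K] [Field K'] [Algebra ℂ K'] {N N' n ρ ρ' : ℕ}
  {y : Fin (N + 1) → K} {y' : Fin (N' + 1) → K'} {π : K →ₐ[ℂ] K'}
  {Φ : Subgroup (K' ≃ₐ[ℂ] K')} {c : Place ℂ K → Fin ρ → ℤ} {c' : Place ℂ K' → Fin ρ' → ℤ}

theorem pull_one (y : Fin (N + 1) → K) (c : Place ℂ K → Fin ρ → ℤ) : IsPullBack y c 1 1 := by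
  intro P Q _ h
  have : P = Q := by
    apply Place.ext
    funext g
    exact h g
  rw [this]
  rfl

theorem Cp_add' {L : AddSubgroup (Fin ρ → ℝ)} {Nf : Set (Fin ρ → ℝ)} {a b : Fin ρ → ℝ}
    (ha : a ∈ Cp L Nf) (hb : b ∈ Cp L Nf) : a + b ∈ Cp L Nf := by
  classical
  obtain ⟨S, hS, ha⟩ := ha
  obtain ⟨S', hS', hb⟩ := hb
  refine ⟨S ∪ S', fun x hx => ?_, cone_add (cone_mono Finset.subset_union_left ha)
    (cone_mono Finset.subset_union_right hb)⟩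
  rcases Finset.mem_union.1 hx with h | h
  · exact hS x h
  · exact hS' x h

theorem Cp_smul' {L : AddSubgroup (Fin ρ → ℝ)} {Nf : Set (Fin ρ → ℝ)} {a : Fin ρ → ℝ}
    (ha : a ∈ Cp L Nf) {t : ℝ} (ht : 0 ≤ t) : t • a ∈ Cp L Nf := by
  obtain ⟨S, hS, ha⟩ := ha
  exact ⟨S, hS, cone_smul ha ht⟩

/-- **The cone conjecture descends to quotients by finite groups.** Version for groups `𝒮'` and `𝒮` of
automorphisms of `X'` and `X` such that the elements of `𝒮'` which commute with `Φ` descend to elements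
of `𝒮`. -/
theorem descendG (hy : NormalModel y) (hy' : NormalModel y') (hn : Algebra.trdeg ℂ K = n)
    (hn' : Algebra.trdeg ℂ K' = n) (hn0 : 0 < n) (hc : PicardBasis y c) (hc' : PicardBasis y' c')
    (hQt : IsQuot π Φ y y') (hint : (interior (nefCone y' n c')).Nonempty)
    {𝒮 : Subgroup (K ≃ₐ[ℂ] K)} (h𝒮 : 𝒮 ≤ autGroup y) {𝒮' : Subgroup (K' ≃ₐ[ℂ] K')}
    (h𝒮' : 𝒮' ≤ autGroup y') (hΦ : Φ ≤ 𝒮')
    (hdesc : ∀ ψ' ∈ 𝒮', (∀ φ ∈ Φ, ψ' * φ = φ * ψ') → ∀ ψ : K ≃ₐ[ℂ] K,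
      (∀ f, π (ψ f) = ψ' (π f)) → ψ ∈ 𝒮)
    {D : Subgroup (K' ≃ₐ[ℂ] K')} (hD : KernelType y' c' 𝒮' D)
    (hfd : HasFundDomain {T | ∃ ψ ∈ 𝒮', IsPullBack y' c' ψ T}
      (nefCone y' n c' ∩ effCone y' c')) :
    HasFundDomain {T | ∃ ψ ∈ 𝒮, IsPullBack y c ψ T} (nefCone y n c ∩ effCone y c) := by
  classical
  have hfinΦ := hQt.finite
  let _ : Fintype Φ := Fintype.ofFinite Φ
  have hcard : (0 : ℝ) < Fintype.card Φ := by exact_mod_cast Fintype.card_pos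
  obtain ⟨M', hM'⟩ := exists_rep (𝒮 := autGroup y') hy' hc' fun φ hφ => isAut_ps hy' hφ
  obtain ⟨M, hM⟩ := exists_rep (𝒮 := autGroup y) hy hc fun φ hφ => isAut_ps hy hφ
  obtain ⟨p, B, hp1, hp2, hp3⟩ := exists_p hy hy' hn hn' hn0 hQt.map hc hc'.numClasses
  have hp : PData π y y' c c' p B := ⟨hp1, hp2, hp3⟩
  have hsw' := sandwich hy' hn' hn0 hc' hint
  obtain ⟨ξ₀, y₀, Y, CD, hy₀⟩ := exists_cdata hsw'
  have hnef := fun x : Fin ρ → ℝ => nef_iff (x := x) hy' hn hn' hQt hM' hp hc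
  have heff := fun x : Fin ρ → ℝ => eff_iff (x := x) hy' hn hn' hQt hM' hp hc
  -- the group
  let rp : 𝒮' →* ((Fin ρ' → ℝ) ≃ₗ[ℝ] (Fin ρ' → ℝ)) :=
    (MonoidHom.mk' hM'.TE hM'.TE_mul).comp (Subgroup.inclusion h𝒮')
  have hrp : ∀ g : 𝒮', rp g = hM'.TE ⟨g, h𝒮' g.2⟩ := fun _ => rfl
  have hL : ∀ g, ∀ x ∈ IntL ρ', rp g x ∈ IntL ρ' := fun g x hx => TR_int _ hx
  have hNa : ∀ g : autGroup y', ∀ x ∈ nefCone y' n c' ∩ effCone y' c',
      hM'.TE g x ∈ nefCone y' n c' ∩ effCone y' c' := fun g x hx =>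
    ⟨pres_nef hy' g.2 (hM'.isPull g) hx.1, pres_eff hy' g.2 (hM'.isPull g) hx.2⟩
  have hN : ∀ g, ∀ x ∈ nefCone y' n c' ∩ effCone y' c',
      rp g x ∈ nefCone y' n c' ∩ effCone y' c' := fun g x hx => hNa _ x hx
  have hrpinv : ∀ g x, rp g⁻¹ (rp g x) = x := by
    intro g x
    have : rp g⁻¹ (rp g x) = (rp g⁻¹ * rp g) x := rfl
    rw [this, ← map_mul, inv_mul_cancel, map_one]
    rfl
  -- the covering on `X'`
  obtain ⟨S', hS', hU, -⟩ := hfd
  have hS'N : ∀ a ∈ S', a ∈ nefCone y' n c' ∩ effCone y' c' := by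
    intro a ha
    rw [hU]
    simp only [Set.mem_iUnion, Set.mem_image]
    exact ⟨1, ⟨1, 𝒮'.one_mem, pull_one y' c'⟩, a, mem_cone_self ha, rfl⟩
  have hcov' : ∀ x ∈ nefCone y' n c' ∩ effCone y' c', ∃ g, rp g x ∈ cone S' := by
    intro x hx
    rw [hU] at hx
    simp only [Set.mem_iUnion, Set.mem_image] at hx
    obtain ⟨T, ⟨ψ, hψ, hT⟩, z, hz, rfl⟩ := hx
    refine ⟨(⟨ψ, hψ⟩ : 𝒮')⁻¹, ?_⟩
    rw [pull_ext hc' hT (hM'.isPull ⟨ψ, h𝒮' hψ⟩), ← hrp ⟨ψ, hψ⟩, hrpinv]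
    exact hz
  -- the subgroups
  let H : Subgroup 𝒮' := Φ.subgroupOf 𝒮'
  have hHfin : Finite H := Finite.of_injective (fun h : H => (⟨h.1.1, h.2⟩ : Φ)) (by
    intro a b hab
    exact Subtype.ext (Subtype.ext (congrArg (fun φ : Φ => (φ : K' ≃ₐ[ℂ] K')) hab)))
  let _ : Fintype H := Fintype.ofFinite H
  obtain ⟨T, hT, hTD⟩ := hD.index
  have hD₀ : DivNormal (D.subgroupOf 𝒮') := by
    refine ⟨fun a ha b hb => Subtype.ext (hD.comm _ ha _ hb), fun a ha m hm => ?_,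
      fun m hm => ?_, fun g a ha => hD.normal g.1 g.2 _ ha⟩
    · obtain ⟨b, hb, hbm⟩ := hD.div _ ha m hm
      exact ⟨⟨b, hD.le hb⟩, hb, Subtype.ext hbm⟩
    · refine ((hD.tors m hm).preimage (f := fun a : 𝒮' => (a : K' ≃ₐ[ℂ] K'))
        Subtype.val_injective.injOn).subset ?_
      rintro a ⟨ha, ham⟩
      exact ⟨ha, congrArg Subtype.val ham⟩
  obtain ⟨F', hF', hcovF'⟩ := cov_fix rp CD hD₀ (fun d hd => by
      rw [hrp]
      exact pull_ext hc' (hM'.isPull _) (hD.triv _ hd))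
    {t : 𝒮' | (t : K' ≃ₐ[ℂ] K') ∈ T} (hT.preimage Subtype.val_injective.injOn)
    (fun g hg => by
      have h1 : IsPullBack y' c' g.1 1 := by
        have h2 := hM'.isPull ⟨g, h𝒮' g.2⟩
        rw [← hrp, hg] at h2
        exact h2
      obtain ⟨t, ht, h3⟩ := hTD g.1 g.2 h1
      have h4 : t ∈ 𝒮' := by
        have h5 : t = g.1 * (t⁻¹ * g.1)⁻¹ := by group
        rw [h5]
        exact 𝒮'.mul_mem g.2 (𝒮'.inv_mem (hD.le h3))
      exact ⟨⟨t, h4⟩, ht, h3⟩)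
    hL hN S' (fun a ha => ⟨hS' a ha, hS'N a ha⟩) (by
      rintro x ⟨t, ht, hx⟩
      refine hcov' x ?_
      have h1 := hsw'.Nadd _ hx _ (hsw'.Nsmul t ht.le _ (hsw'.Nint hy₀))
      rwa [sub_add_cancel] at h1) H
  -- an invariant interior class
  have hAvN : ∀ x ∈ nefCone y' n c' ∩ effCone y' c',
      Av hM' hQt.le x ∈ nefCone y' n c' ∩ effCone y' c' := by
    intro x hx
    rw [Av_apply]
    refine Finset.sum_induction _ (· ∈ nefCone y' n c' ∩ effCone y' c')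
      (fun a b ha hb => hsw'.Nadd a ha b hb) ?_ fun φ _ => hNa ⟨φ, hQt.le φ.2⟩ x hx
    have := hsw'.Nsmul 0 le_rfl _ hx
    rwa [zero_smul] at this
  have hY0 : Av hM' hQt.le y₀ ∈ interior (nefCone y' n c') := by
    rw [Av_apply, ← Finset.add_sum_erase _ _ (Finset.mem_univ (1 : Φ))]
    refine interior_add_mem hsw'.add ?_ ?_
    · have h1 : hM'.TE ⟨((1 : Φ) : K' ≃ₐ[ℂ] K'), hQt.le (1 : Φ).2⟩ = 1 :=
        map_one (MonoidHom.mk' hM'.TE hM'.TE_mul)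
      rw [h1]
      exact hy₀
    · refine Finset.sum_induction _ (· ∈ nefCone y' n c') (fun a b ha hb => hsw'.add a ha b hb) ?_
        fun φ _ => (hNa ⟨φ, hQt.le φ.2⟩ y₀ (hsw'.Nint hy₀)).1
      have := hsw'.smul 0 le_rfl _ (interior_subset hy₀)
      rwa [zero_smul] at this
  have hx0 : B (Av hM' hQt.le y₀) ∈ interior (nefCone y n c) := by
    have h1 : IsOpen (p ⁻¹' interior (nefCone y' n c')) :=
      isOpen_interior.preimage (LinearMap.continuous_of_finiteDimensional p)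
    refine interior_maximal (fun x hx => ?_) h1 ?_
    · exact (hnef x).2 (interior_subset hx)
    · show p (B (Av hM' hQt.le y₀)) ∈ interior (nefCone y' n c')
      rw [Av_range hy' hn hn' hQt hM' hp hc']
      exact hY0
  have hsw := sandwich hy hn hn0 hc ⟨_, hx0⟩
  -- the generators
  choose! k hk1 hk2 using hp.rat
  have hBN : ∀ a ∈ IntL ρ', a ∈ nefCone y' n c' ∩ effCone y' c' → p (B a) = a →
      (k a : ℝ) • B a ∈ IntL ρ ∧ (k a : ℝ) • B a ∈ nefCone y n c ∩ effCone y c := by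
    intro a haL haN hpa
    refine ⟨hk2 a haL, hsw.Nsmul _ (Nat.cast_nonneg _) _ ⟨?_, ?_⟩⟩
    · rw [hnef, hpa]
      exact haN.1
    · rw [heff, hpa]
      exact haN.2
  have hBC : ∀ a ∈ IntL ρ', a ∈ nefCone y' n c' ∩ effCone y' c' → p (B a) = a →
      ∀ F : Finset (Fin ρ → ℝ), (k a : ℝ) • B a ∈ F → B a ∈ cone F := by
    intro a haL haN hpa F hF
    have h1 : (0 : ℝ) < k a := by exact_mod_cast hk1 a haL
    have h2 := cone_smul (mem_cone_self hF) (inv_nonneg.2 h1.le)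
    rwa [smul_smul, inv_mul_cancel₀ h1.ne', one_smul] at h2
  have hF'inv : ∀ a ∈ F', p (B a) = a := fun a ha =>
    p_B hy' hn hn' hQt hM' hp hc' fun φ hφ => (hF' a ha).2 ⟨φ, hΦ hφ⟩ hφ
  let F : Finset (Fin ρ → ℝ) := F'.image fun a => (k a : ℝ) • B a
  -- the action
  obtain ⟨pull, hpull⟩ : ∃ pull : 𝒮 → ((Fin ρ → ℝ) ≃ₗ[ℝ] (Fin ρ → ℝ)),
    ∀ ψ : 𝒮, pull ψ = hM.TE (⟨ψ, h𝒮 ψ.2⟩ : autGroup y)⁻¹ := ⟨_, fun _ => rfl⟩
  have hFD : HasFD pull (nefCone y n c ∩ effCone y c) := by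
    refine HasFD.of_cover (C := nefCone y n c) hsw
      (fun f g => by
        rw [hpull, hpull, hpull, ← hM.TE_mul, ← mul_inv_rev]
        rfl) (fun f x hx => ?_)
      (fun f x hx => ?_) (fun x hx => ?_) F (fun a ha => ?_) (fun x hx => ?_)
    · rw [hpull, hM.TE_apply]
      exact TR_int _ hx
    · rw [hpull]
      have h9 := hM.isPull (⟨f, h𝒮 f.2⟩ : autGroup y)⁻¹
      exact ⟨pres_nef hy ((autGroup y).inv_mem (h𝒮 f.2)) h9 hx.1,
        pres_eff hy ((autGroup y).inv_mem (h𝒮 f.2)) h9 hx.2⟩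
    · -- rational generators
      have hpx : p x ∈ nefCone y' n c' ∩ effCone y' c' := ⟨(hnef x).1 hx.1, (heff x).1 hx.2⟩
      obtain ⟨g, hg⟩ := hcov' _ hpx
      have h1 : ∀ z ∈ cone S', B (Av hM' hQt.le (rp g⁻¹ z)) ∈
          Cp (IntL ρ) (nefCone y n c ∩ effCone y c) := by
        intro z hz
        refine cone_ind (p := fun z => B (Av hM' hQt.le (rp g⁻¹ z)) ∈
          Cp (IntL ρ) (nefCone y n c ∩ effCone y c)) ?_ (fun a b ha hb => ?_)
          (fun t a ht ha => ?_) (fun a ha => ?_) hz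
        · rw [map_zero, map_zero, map_zero]
          exact ⟨∅, by simp, zero_mem_cone _⟩
        · rw [map_add, map_add, map_add]
          exact Cp_add' ha hb
        · rw [map_smul, map_smul, map_smul]
          exact Cp_smul' ha ht
        · have h2 := hAvN _ (hN g⁻¹ a (hS'N a ha))
          have h3 : Av hM' hQt.le (rp g⁻¹ a) ∈ IntL ρ' := by
            rw [Av_apply]
            exact (IntL ρ').sum_mem fun φ _ => hL ⟨φ, hΦ φ.2⟩ _ (hL g⁻¹ a (hS' a ha))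
          have h4 := Av_range hy' hn hn' hQt hM' hp hc' (rp g⁻¹ a)
          refine ⟨{(k (Av hM' hQt.le (rp g⁻¹ a)) : ℝ) • B (Av hM' hQt.le (rp g⁻¹ a))},
            fun b hb => ?_, hBC _ h3 h2 h4 _ (Finset.mem_singleton_self _)⟩
          rw [Finset.mem_singleton] at hb
          rw [hb]
          exact hBN _ h3 h2 h4
      have h2 := h1 _ hg
      rw [hrpinv, Av_p hy' hn hn' hQt hM' hp hc, map_smul, hp.left] at h2
      have h3 := Cp_smul' h2 (inv_nonneg.2 hcard.le)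
      rwa [smul_smul, inv_mul_cancel₀ hcard.ne', one_smul] at h3
    · obtain ⟨b, hb, rfl⟩ := Finset.mem_image.1 ha
      exact hBN b (hF' b hb).1.1 (hF' b hb).1.2 (hF'inv b hb)
    · -- the covering
      have h1 : p x ∈ interior (nefCone y' n c') := by
        obtain ⟨t, ht, h2⟩ := interior_sub hx (B (Av hM' hQt.le y₀))
        have h3 := (hnef _).1 (interior_subset h2)
        have h4 := interior_add_mem hsw'.add (interior_smul_mem hsw'.smul ht hY0) h3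
        rwa [map_sub, map_smul, Av_range hy' hn hn' hQt hM' hp hc', add_sub_cancel] at h4
      obtain ⟨t, ht, h2⟩ := interior_sub h1 y₀
      obtain ⟨g, hg, hgx⟩ := hcovF' (p x) (fun h hh => by
        have h3 := inv_p (c := c) hy' hn hn' hQt hM' hp hc (φ := h.1) hh x
        exact h3) ⟨t, ht, hsw'.Nint h2⟩
      have hcom : ∀ φ ∈ Φ, (g : K' ≃ₐ[ℂ] K') * φ = φ * g := fun φ hφ =>
        congrArg Subtype.val (hg ⟨φ, hΦ hφ⟩ hφ)
      obtain ⟨ψ, hψ⟩ := exists_desc (ψ' := (g : K' ≃ₐ[ℂ] K')) hQt hcom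
      have hψa : IsAut ψ y := aut_desc hy' hn hn' hQt hψ (h𝒮' g.2)
      refine ⟨(⟨ψ, hdesc g g.2 hcom ψ hψ⟩ : 𝒮)⁻¹, ?_⟩
      have h3 := pull_desc hy hy' hn hn' hQt hp hc hψ (h𝒮' g.2) (hM.isPull ⟨ψ, hψa⟩)
        (hM'.isPull ⟨g, h𝒮' g.2⟩) x
      have h4 : hM.TE ⟨ψ, hψa⟩ x = B (rp g (p x)) := by
        rw [hrp, ← h3, hp.left]
      have h5 : pull (⟨ψ, hdesc g g.2 hcom ψ hψ⟩ : 𝒮)⁻¹ = hM.TE ⟨ψ, hψa⟩ := by
        rw [hpull]
        congr 1
      rw [h5, h4]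
      refine cone_ind (p := fun z => B z ∈ cone F) ?_ (fun a b ha hb => ?_)
          (fun t a ht ha => ?_) (fun a ha => ?_) hgx
      · rw [map_zero]
        exact zero_mem_cone _
      · rw [map_add]
        exact cone_add ha hb
      · rw [map_smul]
        exact cone_smul ha ht
      · exact hBC a (hF' a ha).1.1 (hF' a ha).1.2 (hF'inv a ha) F (Finset.mem_image_of_mem _ ha)
  obtain ⟨S, hS, hUS, hdis⟩ := hFD
  have hset : ∀ T, (∃ ψ ∈ 𝒮, IsPullBack y c ψ T) ↔ ∃ f : 𝒮, T = pull f := by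
    intro T
    constructor
    · rintro ⟨ψ, hψ, hT⟩
      refine ⟨(⟨ψ, hψ⟩ : 𝒮)⁻¹, ?_⟩
      have h5 : pull (⟨ψ, hψ⟩ : 𝒮)⁻¹ = hM.TE ⟨ψ, h𝒮 hψ⟩ := by
        rw [hpull]
        congr 1
      rw [h5]
      exact pull_ext hc hT (hM.isPull ⟨ψ, h𝒮 hψ⟩)
    · rintro ⟨f, rfl⟩
      rw [hpull]
      exact ⟨_, (f⁻¹).2, hM.isPull (⟨f, h𝒮 f.2⟩ : autGroup y)⁻¹⟩
  refine ⟨S, hS, ?_, fun T hT hT1 => ?_⟩
  · rw [hUS]
    ext x
    simp only [Set.mem_iUnion, Set.mem_setOf_eq]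
    constructor
    · rintro ⟨f, hf⟩
      exact ⟨pull f, (hset _).2 ⟨f, rfl⟩, hf⟩
    · rintro ⟨T, hT, hx⟩
      obtain ⟨f, rfl⟩ := (hset T).1 hT
      exact ⟨f, hx⟩
  · obtain ⟨f, rfl⟩ := (hset T).1 hT
    exact hdis f hT1

/-- **The cone conjecture descends to quotients by finite groups.** -/
theorem descend (hy : NormalModel y) (hy' : NormalModel y') (hn : Algebra.trdeg ℂ K = n)
    (hn' : Algebra.trdeg ℂ K' = n) (hn0 : 0 < n) (hc : PicardBasis y c) (hc' : PicardBasis y' c')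
    (hQt : IsQuot π Φ y y') (hint : (interior (nefCone y' n c')).Nonempty)
    {D : Subgroup (K' ≃ₐ[ℂ] K')} (hD : KernelType y' c' (autGroup y') D)
    (hfd : HasFundDomain {T | ∃ ψ, IsAut ψ y' ∧ IsPullBack y' c' ψ T}
      (nefCone y' n c' ∩ effCone y' c')) :
    HasFundDomain {T | ∃ ψ, IsAut ψ y ∧ IsPullBack y c ψ T} (nefCone y n c ∩ effCone y c) :=
  descendG hy hy' hn hn' hn0 hc hc' hQt hint (𝒮 := autGroup y) le_rfl (𝒮' := autGroup y') le_rfl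
    hQt.le (fun _ hψ' _ _ hψ => aut_desc hy' hn hn' hQt hψ hψ') hD hfd

end

end Pool.Agent.P8H34
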