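import Pool.Agent.P8H34.Gal

/-!
# General linear forms, divisors through a centre, and general sections
-/

set_option autoImplicit false
set_option linter.overlappingInstances false
set_option linter.unusedSectionVars false

open FF Pool.Agent.W602.GT Pool.Agent.Y172 Pool.Agent.R887
open Pool.Agent.N110 Pool.Agent.N110.CC

namespace Pool.Agent.P8H34

section Avoid

variable {K : Type} [Field K] [Algebra ℂ K]

/-- a general combination of `u` and `v` is a unit at `P` if `u` or `v` is -/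
theorem unit_generic (P : Place ℂ K) {u v : K} (hu : P.Reg u) (hv : P.Reg v)
    (h : (u ≠ 0 ∧ P.ord u = 0) ∨ (v ≠ 0 ∧ P.ord v = 0)) :
    {t : ℂ | ¬ (u + algebraMap ℂ K t * v ≠ 0 ∧ P.ord (u + algebraMap ℂ K t * v) = 0)}.Subsingleton := by
  have key : ∀ t : ℂ, ¬ (u + algebraMap ℂ K t * v ≠ 0 ∧ P.ord (u + algebraMap ℂ K t * v) = 0) →
      P.red u + P.red (algebraMap ℂ K t) * P.red v = 0 := by
    intro t ht
    have hr : P.Reg (algebraMap ℂ K t * v) := P.reg_mul (P.reg_const t) hv
    rw [← P.red_mul (P.reg_const t) hv, ← P.red_add hu hr, P.red_eq_zero_iff (P.reg_add hu hr)]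
    by_contra hcon
    push Not at hcon
    apply ht
    refine ⟨hcon.1, ?_⟩
    have := (P.reg_iff hcon.1).1 (P.reg_add hu hr)
    omega
  intro t ht t' ht'
  have h1 := key t ht
  have h2 := key t' ht'
  by_contra hne
  have h3 : P.red (algebraMap ℂ K (t - t')) * P.red v = 0 := by
    rw [map_sub, P.red_sub (P.reg_const t) (P.reg_const t')]
    linear_combination h1 - h2
  have h4 : P.red (algebraMap ℂ K (t - t')) ≠ 0 := by
    refine P.red_ne_zero ?_ (P.ord_const (sub_ne_zero.2 hne))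
    rw [Ne, map_eq_zero]
    exact sub_ne_zero.2 hne
  have h5 : P.red v = 0 := (mul_eq_zero.1 h3).resolve_left h4
  rw [h5, mul_zero, add_zero] at h1
  rcases h with ⟨h6, h7⟩ | ⟨h6, h7⟩
  · exact P.red_ne_zero h6 h7 h1
  · exact P.red_ne_zero h6 h7 h5

theorem exists_good {ι : Type*} {S : Set ι} (hS : S.Finite) (bad : ι → Set ℂ)
    (h : ∀ i ∈ S, (bad i).Finite) : ∃ t : ℂ, ∀ i ∈ S, t ∉ bad i := by
  obtain ⟨t, ht⟩ := ((hS.biUnion h).infinite_compl).nonempty
  refine ⟨t, fun i hi hcon => ht ?_⟩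
  exact Set.mem_biUnion hi hcon

end Avoid

section Lin

variable {K : Type} [Field K] [Algebra ℂ K] {N : ℕ} {y : Fin (N + 1) → K}

theorem reg_smul' (P : Place ℂ K) {f : K} (hf : P.Reg f) (t : ℂ) :
    P.Reg (algebraMap ℂ K t * f) := P.reg_mul (P.reg_const t) hf

/-- linear forms are regular in a chart -/
theorem lin_reg {j : Fin (N + 1)} {P : Place ℂ K} (hj : Centred y j P) {l : K}
    (hl : l ∈ Submodule.span ℂ (Set.range y)) : P.Reg (l / y j) := by
  induction hl using Submodule.span_induction with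
  | mem x hx =>
    obtain ⟨i, rfl⟩ := hx
    exact hj.2 i
  | zero =>
    rw [zero_div]
    exact P.reg_zero
  | add a b _ _ ha hb =>
    rw [add_div]
    exact P.reg_add ha hb
  | smul t a _ ha =>
    rw [Algebra.smul_def, mul_div_assoc]
    exact reg_smul' P ha t

theorem lin_mem_chart {j : Fin (N + 1)} {l : K}
    (hl : l ∈ Submodule.span ℂ (Set.range y)) : l / y j ∈ chart y j := by
  induction hl using Submodule.span_induction with
  | mem x hx =>
    obtain ⟨i, rfl⟩ := hx
    exact gen_mem y j i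
  | zero =>
    rw [zero_div]
    exact (chart y j).zero_mem
  | add a b _ _ ha hb =>
    rw [add_div]
    exact (chart y j).add_mem ha hb
  | smul t a _ ha =>
    rw [smul_div_assoc]
    exact (chart y j).smul_mem ha t

/-- the linear form `l` does not vanish at the centre of `P` -/
def GoodAt (y : Fin (N + 1) → K) (l : K) (P : Place ℂ K) : Prop := ∀ i, P.Reg (y i / l)

theorem goodAt_of {l m : K} {P : Place ℂ K} (hm : m ≠ 0) (hl : l ≠ 0)
    (h1 : ∀ i, P.Reg (y i / m)) (h2 : P.ord (l / m) = 0) : GoodAt y l P := by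
  intro i
  have h3 : y i / l = y i / m * (l / m)⁻¹ := by
    field_simp
  rw [h3]
  refine P.reg_mul (h1 i) (Or.inr ?_)
  rw [P.ord_inv, h2, neg_zero]

/-- **A general linear form** does not vanish at finitely many given centres. -/
theorem exists_linform (hy : NormalModel y) {S : Set (Place ℂ K)} (hS : S.Finite) :
    ∃ l ∈ Submodule.span ℂ (Set.range y), l ≠ 0 ∧ ∀ P ∈ S, GoodAt y l P := by
  induction S, hS using Set.Finite.induction_on with
  | empty =>
    obtain ⟨j, hj⟩ := hy.ne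
    exact ⟨y j, Submodule.subset_span ⟨j, rfl⟩, hj, fun P hP => absurd hP (Set.notMem_empty P)⟩
  | @insert P S _ hS ih =>
    obtain ⟨l, hl, hl0, hgood⟩ := ih
    obtain ⟨j, hj⟩ := exists_centred hy P
    have hyj : y j ≠ 0 := hj.1
    have hbad : ∀ m : K, m ≠ 0 → ∀ Q : Place ℂ K, Q.Reg (l / m) → Q.Reg (y j / m) →
        ((l / m ≠ 0 ∧ Q.ord (l / m) = 0) ∨ (y j / m ≠ 0 ∧ Q.ord (y j / m) = 0)) →
        {t : ℂ | ¬ (l + algebraMap ℂ K t * y j ≠ 0 ∧
          Q.ord ((l + algebraMap ℂ K t * y j) / m) = 0)}.Subsingleton := by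
      intro m hm Q h1 h2 h3
      refine (unit_generic Q h1 h2 h3).anti ?_
      intro t ht h4
      apply ht
      have h5 : l / m + algebraMap ℂ K t * (y j / m) = (l + algebraMap ℂ K t * y j) / m := by
        field_simp
      rw [h5] at h4
      exact ⟨fun h6 => h4.1 (by rw [h6, zero_div]), h4.2⟩
    classical
    let bad : Place ℂ K → Set ℂ := fun Q =>
      {t : ℂ | ¬ (l + algebraMap ℂ K t * y j ≠ 0 ∧
        Q.ord ((l + algebraMap ℂ K t * y j) / (if Q = P then y j else l)) = 0)}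
    obtain ⟨t, ht⟩ := exists_good (hS.insert P) bad (by
      intro Q hQ
      apply Set.Subsingleton.finite
      by_cases hQP : Q = P
      · subst hQP
        simp only [bad, if_true]
        refine hbad _ hyj Q (lin_reg hj hl) (hj.2 j) (Or.inr ?_)
        rw [div_self hyj]
        exact ⟨one_ne_zero, Q.ord_one⟩
      · simp only [bad, if_neg hQP]
        have hQS : Q ∈ S := (Set.mem_insert_iff.1 hQ).resolve_left hQP
        refine hbad _ hl0 Q ?_ (hgood Q hQS j) (Or.inl ?_)
        · rw [div_self hl0]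
          exact Q.reg_one
        · rw [div_self hl0]
          exact ⟨one_ne_zero, Q.ord_one⟩)
    have hP := ht P (Set.mem_insert _ _)
    simp only [bad, if_true, Set.mem_setOf_eq, not_not] at hP
    refine ⟨l + algebraMap ℂ K t * y j, ?_, hP.1, ?_⟩
    · refine Submodule.add_mem _ hl ?_
      rw [← Algebra.smul_def]
      exact Submodule.smul_mem _ _ (Submodule.subset_span ⟨j, rfl⟩)
    · intro Q hQ
      by_cases hQP : Q = P
      · subst hQP
        exact goodAt_of hyj hP.1 hj.2 hP.2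
      · have hQS : Q ∈ S := (Set.mem_insert_iff.1 hQ).resolve_left hQP
        have h1 := ht Q hQ
        simp only [bad, if_neg hQP, Set.mem_setOf_eq, not_not] at h1
        exact goodAt_of hl0 h1.1 (hgood Q hQS) h1.2

/-- the coordinate ring of the complement of a hyperplane section -/
def lchart (y : Fin (N + 1) → K) (l : K) : Subalgebra ℂ K :=
  Algebra.adjoin ℂ (Set.range fun i => y i / l)

theorem lchart_change {j : Fin (N + 1)} {l : K} (hl : l ≠ 0) (hj : y j ≠ 0) {a : K}
    (ha : a ∈ chart y j) : ∃ k : ℕ, a * (y j / l) ^ k ∈ lchart y l := by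
  have hg : ∀ i, y i / l ∈ lchart y l := fun i => Algebra.subset_adjoin ⟨i, rfl⟩
  induction ha using Algebra.adjoin_induction with
  | mem x hx =>
    obtain ⟨i, rfl⟩ := hx
    refine ⟨1, ?_⟩
    have : y i / y j * (y j / l) ^ 1 = y i / l := by
      field_simp
    rw [this]
    exact hg i
  | algebraMap r => exact ⟨0, by rw [pow_zero, mul_one]; exact (lchart y l).algebraMap_mem r⟩
  | add x z _ _ hx hz =>
    obtain ⟨k, hk⟩ := hx
    obtain ⟨m, hm⟩ := hz
    refine ⟨k + m, ?_⟩
    have : (x + z) * (y j / l) ^ (k + m) = x * (y j / l) ^ k * (y j / l) ^ m +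
        z * (y j / l) ^ m * (y j / l) ^ k := by ring
    rw [this]
    exact (lchart y l).add_mem ((lchart y l).mul_mem hk ((lchart y l).pow_mem (hg j) _))
      ((lchart y l).mul_mem hm ((lchart y l).pow_mem (hg j) _))
  | mul x z _ _ hx hz =>
    obtain ⟨k, hk⟩ := hx
    obtain ⟨m, hm⟩ := hz
    refine ⟨k + m, ?_⟩
    have : (x * z) * (y j / l) ^ (k + m) = (x * (y j / l) ^ k) * (z * (y j / l) ^ m) := by ring
    rw [this]
    exact (lchart y l).mul_mem hk hm

theorem lchart_reg {l : K} {P : Place ℂ K} (h : GoodAt y l P) : ∀ r ∈ lchart y l, P.Reg r := by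
  intro r hr
  have h1 : lchart y l ≤ ({ P.O.toSubring with
      algebraMap_mem' := fun c => P.reg_const c } : Subalgebra ℂ K) := by
    apply Algebra.adjoin_le
    rintro _ ⟨i, rfl⟩
    exact h i
  exact h1 hr

theorem GoodAt.unit {l : K} (hl : l ≠ 0) (hls : l ∈ Submodule.span ℂ (Set.range y))
    {P : Place ℂ K} (h : GoodAt y l P) {j : Fin (N + 1)} (hj : Centred y j P) :
    P.ord (y j / l) = 0 := by
  have h1 := (P.reg_iff (div_ne_zero hj.1 hl)).1 (h j)
  have h2 := (P.reg_iff (div_ne_zero hl hj.1)).1 (lin_reg hj hls)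
  rw [P.ord_div hj.1 hl] at h1 ⊢
  rw [P.ord_div hl hj.1] at h2
  omega

/-- elements of the local ring as quotients in the chart of a linear form -/
theorem lchart_frac {l : K} (hl : l ≠ 0) (hls : l ∈ Submodule.span ℂ (Set.range y))
    {P : Place ℂ K} (h : GoodAt y l P) {f : K} (hf : f ∈ localRing y P) :
    ∃ a ∈ lchart y l, ∃ b ∈ lchart y l, b ≠ 0 ∧ P.ord b = 0 ∧ f * b = a := by
  obtain ⟨j, hj, a, ha, b, hb, hb0, hbo, hab⟩ := hf
  have hg : y j / l ∈ lchart y l := Algebra.subset_adjoin ⟨j, rfl⟩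
  obtain ⟨k, hk⟩ := lchart_change hl hj.1 ha
  obtain ⟨m, hm⟩ := lchart_change hl hj.1 hb
  have hu : y j / l ≠ 0 := div_ne_zero hj.1 hl
  refine ⟨a * (y j / l) ^ k * (y j / l) ^ m, (lchart y l).mul_mem hk ((lchart y l).pow_mem hg _),
    b * (y j / l) ^ m * (y j / l) ^ k, (lchart y l).mul_mem hm ((lchart y l).pow_mem hg _),
    mul_ne_zero (mul_ne_zero hb0 (pow_ne_zero _ hu)) (pow_ne_zero _ hu), ?_, ?_⟩
  · rw [P.ord_mul (mul_ne_zero hb0 (pow_ne_zero _ hu)) (pow_ne_zero _ hu),
      P.ord_mul hb0 (pow_ne_zero _ hu), P.ord_pow, P.ord_pow, h.unit hl hls hj, hbo]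
    ring
  · rw [← hab]
    ring

/-- the local ring is the ring of the functions which are regular at the prime divisors through the
centre -/
theorem localRing_iff (hy : NormalModel y) {Q : Place ℂ K} {f : K} :
    f ∈ localRing y Q ↔ ∀ P, IsPrimeDivisor y P → Through y P Q → P.Reg f :=
  ⟨fun hf P _ h => h f hf, fun h => mem_localRing_of_reg hy h⟩

theorem lchart_local (hy : NormalModel y) {l : K} (hl : l ≠ 0)
    (hls : l ∈ Submodule.span ℂ (Set.range y)) {P : Place ℂ K} (h : GoodAt y l P) {f : K}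
    (hf : f ∈ lchart y l) : f ∈ localRing y P := by
  rw [localRing_iff hy]
  intro T hT hTP
  refine lchart_reg (P := T) (fun i => ?_) f hf
  obtain ⟨j, hj⟩ := exists_centred hy P
  have h1 : y i / l ∈ localRing y P := by
    refine ⟨j, hj, y i / y j, gen_mem y j i, l / y j, lin_mem_chart hls, div_ne_zero hl hj.1, ?_, ?_⟩
    · have h2 := h.unit hl hls hj
      rw [P.ord_div hj.1 hl] at h2
      rw [P.ord_div hl hj.1]
      omega
    · have h3 := hj.1
      field_simp
  exact hTP _ h1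

theorem localRing_mul (hy : NormalModel y) {Q : Place ℂ K} {f g : K} (hf : f ∈ localRing y Q)
    (hg : g ∈ localRing y Q) : f * g ∈ localRing y Q := by
  rw [localRing_iff hy] at hf hg ⊢
  exact fun P hP hPQ => P.reg_mul (hf P hP hPQ) (hg P hP hPQ)

theorem localRing_one (hy : NormalModel y) {Q : Place ℂ K} : (1 : K) ∈ localRing y Q := by
  rw [localRing_iff hy]
  exact fun P _ _ => P.reg_one

theorem localRing_prod (hy : NormalModel y) {Q : Place ℂ K} {ι : Type*} (s : Finset ι) (f : ι → K)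
    (hf : ∀ i ∈ s, f i ∈ localRing y Q) : ∏ i ∈ s, f i ∈ localRing y Q := by
  classical
  induction s using Finset.induction_on with
  | empty => rw [Finset.prod_empty]; exact localRing_one hy
  | insert a s ha ih =>
    rw [Finset.prod_insert ha]
    exact localRing_mul hy (hf a (Finset.mem_insert_self _ _))
      (ih fun i hi => hf i (Finset.mem_insert_of_mem hi))

theorem localRing_inv {Q : Place ℂ K} {f : K} (hf : f ∈ localRing y Q) (hf0 : f ≠ 0)
    (ho : Q.ord f = 0) : f⁻¹ ∈ localRing y Q := by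
  obtain ⟨j, hj, a, ha, b, hb, hb0, hbo, hab⟩ := hf
  refine ⟨j, hj, b, hb, a, ha, ?_, ?_, ?_⟩
  · rw [← hab]
    exact mul_ne_zero hf0 hb0
  · rw [← hab, Q.ord_mul hf0 hb0, ho, hbo, add_zero]
  · rw [← hab, inv_mul_cancel_left₀ hf0]

/-- a unit of the local ring is a unit along all divisors through the centre -/
theorem ord_of_unit {P Q : Place ℂ K} (h : Through y P Q) {f : K} (hf : f ∈ localRing y Q)
    (hf0 : f ≠ 0) (ho : Q.ord f = 0) : P.ord f = 0 := by
  have h1 := (P.reg_iff hf0).1 (h _ hf)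
  have h2 := (P.reg_iff (inv_ne_zero hf0)).1 (h _ (localRing_inv hf hf0 ho))
  rw [P.ord_inv] at h2
  omega

end Lin

section Thr

variable {K K' : Type} [Field K] [Algebra ℂ K] [Field K'] [Algebra ℂ K'] {N N' n : ℕ}
  {y : Fin (N + 1) → K} {y' : Fin (N' + 1) → K'} {π : K →ₐ[ℂ] K'} {Φ : Subgroup (K' ≃ₐ[ℂ] K')}

theorem aut_local {φ : K' ≃ₐ[ℂ] K'} (hφ : IsAut φ y') {Q : Place ℂ K'} {f : K'} :
    f ∈ localRing y' (comap φ Q) ↔ φ f ∈ localRing y' Q := hφ _ _ (fun _ => rfl) f

/-- **Going down.** Every divisor over a divisor through the image of a centre passes through a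
conjugate of this centre. -/
theorem exists_through (hy' : NormalModel y') (hQt : IsQuot π Φ y y') {P R : Place ℂ K}
    (hPR : Through y P R) {Q : Place ℂ K'} {e : ℕ} (hQ : LiesOver π Q P e) {R' : Place ℂ K'}
    {e' : ℕ} (hR' : LiesOver π R' R e') : ∃ φ ∈ Φ, Through y' Q (comap φ R') := by
  classical
  have := hQt.finite
  have := Fintype.ofFinite Φ
  by_contra hcon
  push Not at hcon
  let S : Set (Place ℂ K') := Set.range (fun φ : Φ => comap (φ : K' ≃ₐ[ℂ] K') R') ∪
    Set.range fun φ : Φ => comap (φ : K' ≃ₐ[ℂ] K') Q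
  have hS : S.Finite := (Set.finite_range _).union (Set.finite_range _)
  obtain ⟨l, hls, hl, hgood⟩ := exists_linform hy' hS
  have h1 : comap 1 Q = Q := Place.ext (funext fun _ => rfl)
  have hgQ : ∀ φ : Φ, GoodAt y' l (comap (φ : K' ≃ₐ[ℂ] K') Q) := fun φ => hgood _ (Or.inr ⟨φ, rfl⟩)
  have hgR : ∀ φ : Φ, GoodAt y' l (comap (φ : K' ≃ₐ[ℂ] K') R') :=
    fun φ => hgood _ (Or.inl ⟨φ, rfl⟩)
  have hgQ1 : GoodAt y' l Q := by
    have := hgQ 1
    change GoodAt y' l (comap 1 Q) at this
    rwa [h1] at this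
  -- elements which vanish along `Q` but not at the conjugates of the centre
  have hel : ∀ φ : Φ, ∃ b : lchart y' l, b ∈ centre (lchart y' l) Q (lchart_reg hgQ1) ∧
      b ∉ centre (lchart y' l) (comap (φ : K' ≃ₐ[ℂ] K') R') (lchart_reg (hgR φ)) := by
    intro φ
    have h2 := hcon φ φ.2
    unfold Through at h2
    push Not at h2
    obtain ⟨f, hf, hfQ⟩ := h2
    obtain ⟨a, ha, b, hb, hb0, hbo, hab⟩ := lchart_frac hl hls (hgR φ) hf
    refine ⟨⟨b, hb⟩, ?_, ?_⟩
    · rw [mem_centre]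
      right
      show 0 < Q.ord b
      have hf0 : f ≠ 0 := by
        rintro rfl
        exact hfQ Q.reg_zero
      have h3 : Q.ord f < 0 := by
        rw [Q.reg_iff hf0] at hfQ
        omega
      have h4 : a ≠ 0 := by
        rw [← hab]
        exact mul_ne_zero hf0 hb0
      have h5 := (Q.reg_iff h4).1 (lchart_reg hgQ1 a ha)
      rw [← hab, Q.ord_mul hf0 hb0] at h5
      omega
    · rw [notMem_centre]
      exact ⟨fun h => hb0 (congrArg Subtype.val h), hbo⟩
  -- prime avoidance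
  obtain ⟨v, hvQ, hvR⟩ : ∃ v : lchart y' l, v ∈ centre (lchart y' l) Q (lchart_reg hgQ1) ∧
      ∀ φ : Φ, v ∉ centre (lchart y' l) (comap (φ : K' ≃ₐ[ℂ] K') R') (lchart_reg (hgR φ)) := by
    by_contra hno
    push Not at hno
    have hsub : ((centre (lchart y' l) Q (lchart_reg hgQ1) : Ideal (lchart y' l)) :
        Set (lchart y' l)) ⊆ ⋃ φ ∈ ((Finset.univ : Finset Φ) : Set Φ),
          (centre (lchart y' l) (comap (φ : K' ≃ₐ[ℂ] K') R') (lchart_reg (hgR φ)) :
            Set (lchart y' l)) := by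
      intro v hv
      obtain ⟨φ, hφ⟩ := hno v hv
      exact Set.mem_biUnion (Finset.mem_coe.2 (Finset.mem_univ φ)) hφ
    rw [Ideal.subset_union_prime 1 1 fun φ _ _ _ => inferInstance] at hsub
    obtain ⟨φ, -, hφ⟩ := hsub
    obtain ⟨b, hb1, hb2⟩ := hel φ
    exact hb2 (hφ hb1)
  have hv0 : (v : K') ≠ 0 := by
    have := (notMem_centre.1 (hvR 1)).1
    exact fun h => this (Subtype.ext h)
  have hvR' : ∀ φ : Φ, (comap (φ : K' ≃ₐ[ℂ] K') R').ord (v : K') = 0 := fun φ =>
    (notMem_centre.1 (hvR φ)).2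
  have hvQ' : 0 < Q.ord (v : K') := by
    rcases mem_centre.1 hvQ with h | h
    · exact absurd (congrArg Subtype.val h) hv0
    · exact h
  obtain ⟨g, hg⟩ := exists_norm hQt.toIsGal (v : K')
  have hg0 : g ≠ 0 := by
    rintro rfl
    rw [map_zero] at hg
    exact norm_ne_zero hv0 hg.symm
  -- the norm is a unit at the centre of `R`
  have hgl : g ∈ localRing y R := by
    rw [hQt.loc R' R e' hR' g, hg]
    refine localRing_prod hy' _ _ fun φ _ => ?_
    rw [← aut_local (hQt.aut φ φ.2)]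
    exact lchart_local hy' hl hls (hgR φ) v.2
  have hgR0 : R.ord g = 0 := by
    have h2 := ord_norm (Φ := Φ) R' hv0
    rw [← hg, hR'.2 g, Finset.sum_eq_zero fun φ _ => hvR' φ] at h2
    rcases mul_eq_zero.1 h2 with h3 | h3
    · have := hR'.1
      omega
    · exact h3
  have h3 := ord_of_unit hPR hgl hg0 hgR0
  have h4 := ord_norm (Φ := Φ) Q hv0
  rw [← hg, hQ.2 g, h3, mul_zero] at h4
  have h5 : 0 < ∑ φ : Φ, (comap (φ : K' ≃ₐ[ℂ] K') Q).ord (v : K') := by
    refine Finset.sum_pos' (fun φ _ => ?_) ⟨1, Finset.mem_univ _, ?_⟩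
    · exact ((comap (φ : K' ≃ₐ[ℂ] K') Q).reg_iff hv0).1 (lchart_reg (hgQ φ) v v.2)
    · show 0 < (comap 1 Q).ord (v : K')
      rw [h1]
      exact hvQ'
  omega

end Thr

section Sec

variable {K : Type} [Field K] [Algebra ℂ K] {N n : ℕ} {y : Fin (N + 1) → K}

/-- `f` is a section of the divisor `D` -/
def Sct (y : Fin (N + 1) → K) (D : Place ℂ K → ℤ) (f : K) : Prop :=
  f ≠ 0 ∧ ∀ Q, IsPrimeDivisor y Q → 0 ≤ Q.ord f + D Q

/-- `f` generates the divisor `D` at the centre of `R` -/
def Gen (y : Fin (N + 1) → K) (D : Place ℂ K → ℤ) (R : Place ℂ K) (f : K) : Prop :=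
  ∀ P, IsPrimeDivisor y P → Through y P R → P.ord f + D P = 0

/-- the combinations of two sections, one of which generates -/
theorem gen_generic (hy : NormalModel y) {D : Place ℂ K → ℤ} {R : Place ℂ K} {f g : K}
    (hf : Sct y D f) (hg : Sct y D g) (h : Gen y D R f ∨ Gen y D R g) :
    {t : ℂ | ¬ (f + algebraMap ℂ K t * g ≠ 0 ∧
      Gen y D R (f + algebraMap ℂ K t * g))}.Subsingleton := by
  -- the general statement for the generator `m`
  have key : ∀ m : K, Sct y D m → Gen y D R m →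
      ((f / m ≠ 0 ∧ R.ord (f / m) = 0) ∨ (g / m ≠ 0 ∧ R.ord (g / m) = 0)) →
      {t : ℂ | ¬ (f + algebraMap ℂ K t * g ≠ 0 ∧
        Gen y D R (f + algebraMap ℂ K t * g))}.Subsingleton := by
    intro m hm hgen h1
    have hloc : ∀ s : K, Sct y D s → s / m ∈ localRing y R := by
      intro s hs
      rw [localRing_iff hy]
      intro P hP hPR
      right
      rw [P.ord_div hs.1 hm.1]
      have h2 := hs.2 P hP
      have h3 := hgen P hP hPR
      omega
    refine (unit_generic R (localRing_reg (hloc f hf)) (localRing_reg (hloc g hg)) h1).anti ?_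
    intro t ht h2
    apply ht
    have h3 : f / m + algebraMap ℂ K t * (g / m) = (f + algebraMap ℂ K t * g) / m := by
      field_simp
    rw [h3] at h2
    have h4 : f + algebraMap ℂ K t * g ≠ 0 := fun h => h2.1 (by rw [h, zero_div])
    have h5 : (f + algebraMap ℂ K t * g) / m ∈ localRing y R := by
      rw [← h3, localRing_iff hy]
      intro P hP hPR
      exact P.reg_add (hPR _ (hloc f hf)) (P.reg_mul (P.reg_const t) (hPR _ (hloc g hg)))
    refine ⟨h4, fun P hP hPR => ?_⟩
    have h6 := ord_of_unit hPR h5 h2.1 h2.2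
    rw [P.ord_div h4 hm.1] at h6
    have h7 := hgen P hP hPR
    omega
  rcases h with h | h
  · refine key f hf h (Or.inl ?_)
    rw [div_self hf.1]
    exact ⟨one_ne_zero, R.ord_one⟩
  · refine key g hg h (Or.inr ?_)
    rw [div_self hg.1]
    exact ⟨one_ne_zero, R.ord_one⟩

theorem Sct.add {D : Place ℂ K → ℤ} {f g : K} (hf : Sct y D f) (hg : Sct y D g) (t : ℂ)
    (h0 : f + algebraMap ℂ K t * g ≠ 0) : Sct y D (f + algebraMap ℂ K t * g) := by
  refine ⟨h0, fun Q hQ => ?_⟩
  have h1 := hf.2 Q hQ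
  have h2 := hg.2 Q hQ
  by_cases ht : t = 0
  · subst ht
    rw [map_zero, zero_mul, add_zero]
    exact h1
  have ht' : algebraMap ℂ K t ≠ 0 := by rwa [Ne, map_eq_zero]
  have h3 := Q.ord_add hf.1 (mul_ne_zero ht' hg.1) h0
  rw [Q.ord_mul ht' hg.1, Q.ord_const ht, zero_add] at h3
  rcases min_le_iff.1 h3 with h4 | h4 <;> omega

/-- **A section which generates at finitely many given centres.** -/
theorem exists_gen (hy : NormalModel y) {D : Place ℂ K → ℤ} (hD : IsFree y n D)
    {S : Set (Place ℂ K)} (hS : S.Finite) (hne : S.Nonempty) (hSd : ∀ R ∈ S, Divisorial n R) :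
    ∃ f, Sct y D f ∧ ∀ R ∈ S, Gen y D R f := by
  obtain ⟨R₀, hR₀⟩ := hne
  suffices h : ∀ T : Set (Place ℂ K), T.Finite → T ⊆ S → ∃ f, Sct y D f ∧ Gen y D R₀ f ∧
      ∀ R ∈ T, Gen y D R f by
    obtain ⟨f, hf, -, h1⟩ := h S hS subset_rfl
    exact ⟨f, hf, h1⟩
  intro T hT
  induction T, hT using Set.Finite.induction_on with
  | empty =>
    intro _
    obtain ⟨f, hf0, hf, hfR⟩ := hD.2 R₀ (hSd R₀ hR₀)
    exact ⟨f, ⟨hf0, hf⟩, hfR, fun R hR => absurd hR (Set.notMem_empty R)⟩
  | @insert R T _ hT ih =>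
    intro hTS
    obtain ⟨f, hf, hf₀, hfT⟩ := ih ((Set.subset_insert _ _).trans hTS)
    obtain ⟨g, hg0, hg, hgR⟩ := hD.2 R (hSd R (hTS (Set.mem_insert _ _)))
    have hgs : Sct y D g := ⟨hg0, hg⟩
    obtain ⟨t, ht⟩ := exists_good ((hT.insert R).insert R₀) (fun Q =>
      {t : ℂ | ¬ (f + algebraMap ℂ K t * g ≠ 0 ∧ Gen y D Q (f + algebraMap ℂ K t * g))}) (by
        intro Q hQ
        apply Set.Subsingleton.finite
        apply gen_generic hy hf hgs
        rcases Set.mem_insert_iff.1 hQ with rfl | hQ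
        · exact Or.inl hf₀
        rcases Set.mem_insert_iff.1 hQ with rfl | hQ
        · exact Or.inr hgR
        · exact Or.inl (hfT Q hQ))
    simp only [Set.mem_setOf_eq, not_not] at ht
    have h1 := ht R₀ (Set.mem_insert _ _)
    exact ⟨_, hf.add hgs t h1.1, h1.2, fun Q hQ => (ht Q (Set.mem_insert_of_mem _ hQ)).2⟩

end Sec

end Pool.Agent.P8H34
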