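import Pool.Agent.K3h69.KQ.Abs

/-!
# Homomorphisms from a finite group modulo a divisible abelian normal subgroup

Conjugacy of homomorphisms `H → G`, `H` finite, which agree modulo a commutative normal subgroup which
is divisible and has finitely many elements of each order; and the covering of the invariant part of a
cone by the translates, under the centraliser of a finite subgroup, of a finitely generated cone.
-/

set_option autoImplicit false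

namespace Pool.Agent.P8H34

open Pool.Agent.Y167 Finset

/-- `D` is a commutative divisible normal subgroup of `G` with finitely many elements of each order;
for instance, the group of the points of an abelian variety. -/
structure DivNormal {G : Type*} [Group G] (D : Subgroup G) : Prop where
  comm : ∀ a ∈ D, ∀ b ∈ D, a * b = b * a
  div : ∀ a ∈ D, ∀ m : ℕ, 0 < m → ∃ b ∈ D, b ^ m = a
  tors : ∀ m : ℕ, 0 < m → {a : G | a ∈ D ∧ a ^ m = 1}.Finite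
  normal : ∀ g : G, ∀ a ∈ D, g * a * g⁻¹ ∈ D

theorem conj_torsion {G : Type*} [Group G] {D : Subgroup G} (hD : DivNormal D) {H : Type*} [Group H]
    [Fintype H] (θ θ' : H →* G) (h : ∀ x, θ x * (θ' x)⁻¹ ∈ D) :
    ∃ c ∈ D, ∀ x, c⁻¹ * θ x * c * (θ' x)⁻¹ ∈ D ∧
      (c⁻¹ * θ x * c * (θ' x)⁻¹) ^ (Fintype.card H) = 1 := by
  classical
  let _ : CommGroup D := { (inferInstance : Group D) with
    mul_comm := fun a b => Subtype.ext (hD.comm a a.2 b b.2) }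
  let act : H → D →* D := fun x =>
    { toFun := fun d => ⟨θ' x * d * (θ' x)⁻¹, hD.normal _ _ d.2⟩
      map_one' := by
        apply Subtype.ext
        show θ' x * 1 * (θ' x)⁻¹ = 1
        group
      map_mul' := by
        intro a b
        apply Subtype.ext
        show θ' x * (a * b) * (θ' x)⁻¹ = θ' x * a * (θ' x)⁻¹ * (θ' x * b * (θ' x)⁻¹)
        group }
  have hact : ∀ x d, ((act x d : D) : G) = θ' x * d * (θ' x)⁻¹ := fun _ _ => rfl
  let a : H → D := fun x => ⟨θ x * (θ' x)⁻¹, h x⟩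
  have ha : ∀ x, ((a x : D) : G) = θ x * (θ' x)⁻¹ := fun _ => rfl
  have hco : ∀ x y, a (x * y) = act x (a y) * a x := by
    intro x y
    rw [mul_comm]
    apply Subtype.ext
    show θ (x * y) * (θ' (x * y))⁻¹ = θ x * (θ' x)⁻¹ * (θ' x * (θ y * (θ' y)⁻¹) * (θ' x)⁻¹)
    rw [map_mul, map_mul]
    group
  set n := Fintype.card H with hn
  have hn0 : 0 < n := Fintype.card_pos
  let b : D := ∏ y, a y
  have hb : ∀ x, b = act x b * a x ^ n := by
    intro x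
    have h1 : ∏ y, a (x * y) = b := Equiv.prod_comp (Equiv.mulLeft x) a
    have h2 : ∏ y, a (x * y) = act x b * a x ^ n := by
      simp only [hco]
      rw [Finset.prod_mul_distrib, Finset.prod_const, Finset.card_univ, ← map_prod]
    rw [← h2, h1]
  obtain ⟨c, hc, hcb⟩ := hD.div b b.2 n hn0
  refine ⟨c, hc, fun x => ?_⟩
  have h1 : c⁻¹ * θ x * c * (θ' x)⁻¹ = (((⟨c, hc⟩ : D)⁻¹ * a x * act x ⟨c, hc⟩ : D) : G) := by
    show _ = c⁻¹ * (θ x * (θ' x)⁻¹) * (θ' x * c * (θ' x)⁻¹)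
    group
  have h2 : (((⟨c, hc⟩ : D)⁻¹ * a x * act x ⟨c, hc⟩ : D)) ^ n = 1 := by
    have hcb' : (⟨c, hc⟩ : D) ^ n = b := Subtype.ext hcb
    rw [mul_pow, mul_pow, inv_pow, ← map_pow, hcb', mul_assoc, mul_comm (a x ^ n), ← hb x,
      inv_mul_cancel]
  rw [h1]
  refine ⟨SetLike.coe_mem _, ?_⟩
  rw [← Subgroup.coe_pow, h2]
  rfl

theorem exists_reps {G : Type*} [Group G] {D : Subgroup G} (hD : DivNormal D) {H : Type*} [Group H]
    [Fintype H] (Θ : Set (H →* G)) (T : Set G) (hT : T.Finite)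
    (hΘ : ∀ θ ∈ Θ, ∀ x, ∃ t ∈ T, θ x * t⁻¹ ∈ D) :
    ∃ R : Set (H → G), R.Finite ∧ ∀ θ ∈ Θ, ∃ c ∈ D, (fun x => c⁻¹ * θ x * c) ∈ R := by
  classical
  let P : Set (H → G) := {s | ∀ x, s x ∈ T}
  have hP : P.Finite := Set.Finite.pi' fun _ => hT
  let n := Fintype.card H
  have hn0 : 0 < n := Fintype.card_pos
  -- a homomorphism for each function
  have h1 : ∀ s : H → G, ∃ r : H →* G, (∃ θ ∈ Θ, ∀ x, θ x * (s x)⁻¹ ∈ D) →
      ∀ x, r x * (s x)⁻¹ ∈ D := by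
    intro s
    by_cases hs : ∃ θ ∈ Θ, ∀ x, θ x * (s x)⁻¹ ∈ D
    · obtain ⟨θ, -, h⟩ := hs
      exact ⟨θ, fun _ => h⟩
    · exact ⟨1, fun h => absurd h hs⟩
  choose r hr using h1
  refine ⟨⋃ s ∈ P, {f | ∀ x, f x ∈ (fun a => a * r s x) '' {a : G | a ∈ D ∧ a ^ n = 1}}, ?_, ?_⟩
  · exact hP.biUnion fun s _ => Set.Finite.pi' fun x => (hD.tors n hn0).image _
  · intro θ hθ
    choose s hs hsD using hΘ θ hθ
    have h2 := hr s ⟨θ, hθ, hsD⟩
    obtain ⟨c, hc, h3⟩ := conj_torsion hD θ (r s) fun x => by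
      have h4 : θ x * (r s x)⁻¹ = θ x * (s x)⁻¹ * (r s x * (s x)⁻¹)⁻¹ := by group
      rw [h4]
      exact D.mul_mem (hsD x) (D.inv_mem (h2 x))
    refine ⟨c, hc, ?_⟩
    rw [Set.mem_iUnion₂]
    refine ⟨s, hs, fun x => ⟨_, h3 x, ?_⟩⟩
    show c⁻¹ * θ x * c * (r s x)⁻¹ * r s x = _
    rw [inv_mul_cancel_right]

variable {W : Type*} [AddCommGroup W] [Module ℝ W]
  {L : AddSubgroup W} {Nf : Set W} {ξ₀ : W →ₗ[ℝ] ℝ} {y₀ : W} {Y : Finset W}

/-- **The covering of the invariant part of the cone** by the translates under the centraliser of a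
finite subgroup. -/
theorem cov_fix {G : Type*} [Group G] (π : G →* (W ≃ₗ[ℝ] W)) (D : CData L Nf ξ₀ y₀ Y)
    {D₀ : Subgroup G} (hD₀ : DivNormal D₀) (hD₀1 : ∀ d ∈ D₀, π d = 1) (T₀ : Set G) (hT₀ : T₀.Finite)
    (hker : ∀ g, π g = 1 → ∃ t ∈ T₀, t⁻¹ * g ∈ D₀) (hL : ∀ g, ∀ x ∈ L, π g x ∈ L)
    (hN : ∀ g, ∀ x ∈ Nf, π g x ∈ Nf)
    (F : Finset W) (hF : ∀ a ∈ F, a ∈ L ∧ a ∈ Nf)
    (hcov : ∀ x, (∃ t : ℝ, 0 < t ∧ x - t • y₀ ∈ Nf) → ∃ g, π g x ∈ cone F)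
    (H : Subgroup G) [Fintype H] :
    ∃ F' : Finset W, (∀ a ∈ F', (a ∈ L ∧ a ∈ Nf) ∧ ∀ h ∈ H, π h a = a) ∧
      ∀ x : W, (∀ h ∈ H, π h x = x) → (∃ t : ℝ, 0 < t ∧ x - t • y₀ ∈ Nf) →
        ∃ g, (∀ h ∈ H, g * h = h * g) ∧ π g x ∈ cone F' := by
  classical
  have hK := Pool.Agent.K3h69.KQ.fin_stab D π.range (by rintro _ ⟨g, rfl⟩; exact hL g)
    (by rintro _ ⟨g, rfl⟩; exact hN g) F hF
  set K := {k : W ≃ₗ[ℝ] W | k ∈ π.range ∧ ∃ z, z ∈ cone F ∧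
    (∃ t : ℝ, 0 < t ∧ z - t • y₀ ∈ Nf) ∧ k z = z} with hKdef
  -- finitely many cosets
  obtain ⟨T, hT, hKT⟩ : ∃ T : Set G, T.Finite ∧ ∀ g, π g ∈ K → ∃ t ∈ T, g * t⁻¹ ∈ D₀ := by
    have h1 : ∀ k ∈ K, ∃ g₀, π g₀ = k := fun k hk => hk.1
    choose! g₀ hg₀ using h1
    refine ⟨⋃ k ∈ K, (fun t => g₀ k * t) '' T₀, hK.biUnion fun k _ => hT₀.image _, fun g hg => ?_⟩
    obtain ⟨t, ht, h2⟩ := hker ((g₀ (π g))⁻¹ * g) (by
      rw [map_mul, map_inv, hg₀ _ hg, inv_mul_cancel])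
    refine ⟨g₀ (π g) * t, ?_, ?_⟩
    · rw [Set.mem_iUnion₂]
      exact ⟨π g, hg, t, ht, rfl⟩
    · have h3 := hD₀.normal (g₀ (π g) * t) _ h2
      have h4 : g₀ (π g) * t * (t⁻¹ * ((g₀ (π g))⁻¹ * g)) * (g₀ (π g) * t)⁻¹
          = g * (g₀ (π g) * t)⁻¹ := by group
      rwa [h4] at h3
  have hint : ∀ g x, (∃ t : ℝ, 0 < t ∧ x - t • y₀ ∈ Nf) →
      ∃ t : ℝ, 0 < t ∧ π g x - t • y₀ ∈ Nf := by
    rintro g x ⟨t, ht, hx⟩
    obtain ⟨C, hC, h⟩ := D.y_int (π g⁻¹ y₀)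
    have h1 := hN g _ h
    rw [map_sub, map_smul] at h1
    have h2 : π g (π g⁻¹ y₀) = y₀ := by
      have : π g (π g⁻¹ y₀) = (π g * π g⁻¹) y₀ := rfl
      rw [this, ← map_mul, mul_inv_cancel, map_one]
      rfl
    rw [h2] at h1
    have h3 := hN g _ hx
    rw [map_sub, map_smul] at h3
    refine ⟨t / C, by positivity, ?_⟩
    have h4 := D.add _ h3 _ (D.smul (t / C) (by positivity) _ h1)
    have h5 : π g x - t • π g y₀ + (t / C) • (C • π g y₀ - y₀) = π g x - (t / C) • y₀ := by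
      rw [smul_sub, smul_smul, div_mul_cancel₀ _ hC.ne']
      abel
    rwa [h5] at h4
  let cj : G → H →* G := fun g => (MulAut.conj g).toMonoidHom.comp H.subtype
  have hcj : ∀ g (h : H), cj g h = g * h * g⁻¹ := fun _ _ => rfl
  let Θ : Set (H →* G) := {θ | ∃ (g : G) (x : W), (∃ t : ℝ, 0 < t ∧ x - t • y₀ ∈ Nf) ∧
    (∀ h ∈ H, π h x = x) ∧ π g x ∈ cone F ∧ θ = cj g}
  obtain ⟨R, hR, hΘR⟩ := exists_reps hD₀ Θ T hT (by
    rintro _ ⟨g, x, hx, hfix, hgx, rfl⟩ h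
    refine hKT _ ⟨⟨_, rfl⟩, π g x, hgx, hint g x hx, ?_⟩
    rw [hcj]
    have : π (g * h * g⁻¹) (π g x) = (π (g * h * g⁻¹) * π g) x := rfl
    rw [this, ← map_mul, inv_mul_cancel_right, map_mul]
    show π g (π h x) = _
    rw [hfix h h.2])
  have hch : ∀ θ : H → G, ∃ g : G, (∃ g' : G, θ = fun h : H => g' * h * g'⁻¹) →
      θ = fun h : H => g * h * g⁻¹ := by
    intro θ
    by_cases hθ : ∃ g' : G, θ = fun h : H => g' * h * g'⁻¹
    · obtain ⟨g, hg⟩ := hθ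
      exact ⟨g, fun _ => hg⟩
    · exact ⟨1, fun h => absurd h hθ⟩
  choose γ hγ using hch
  have hπ1 : π 1 = 1 := map_one π
  let A : W →ₗ[ℝ] W := ∑ h : H, ((π h : W ≃ₗ[ℝ] W) : W →ₗ[ℝ] W)
  have hA : ∀ x, A x = ∑ h : H, π h x := by
    intro x
    simp only [A, LinearMap.sum_apply, LinearEquiv.coe_coe]
  have hAinv : ∀ x, ∀ h ∈ H, π h (A x) = A x := by
    intro x h hh
    rw [hA, map_sum]
    have h1 := Equiv.sum_comp (Equiv.mulLeft (⟨h, hh⟩ : H)) fun k : H => π k x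
    rw [← h1]
    refine Finset.sum_congr rfl fun k _ => ?_
    show π h (π k x) = π (h * k) x
    rw [map_mul]
    rfl
  refine ⟨hR.toFinset.biUnion fun θ => F.image fun a => A (π (γ θ)⁻¹ a), ?_, ?_⟩
  · intro a ha
    obtain ⟨θ, -, h1⟩ := Finset.mem_biUnion.1 ha
    obtain ⟨b, hb, rfl⟩ := Finset.mem_image.1 h1
    refine ⟨?_, hAinv _⟩
    rw [hA]
    refine ⟨L.sum_mem fun h _ => hL _ _ (hL _ _ (hF b hb).1), ?_⟩
    refine Finset.sum_induction _ (· ∈ Nf) (fun x y hx hy => D.add x hx y hy) ?_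
      fun h _ => hN _ _ (hN _ _ (hF b hb).2)
    have := D.smul 0 le_rfl _ D.y_N
    rwa [zero_smul] at this
  · intro x hfix hx
    obtain ⟨g₁, hg₁⟩ := hcov x hx
    obtain ⟨c, hc, hcR⟩ := hΘR (cj g₁) ⟨g₁, x, hx, hfix, hg₁, rfl⟩
    set g : G := c⁻¹ * g₁ with hgdef
    have hg : π g x ∈ cone F := by
      rw [hgdef, map_mul, map_inv, hD₀1 c hc, inv_one, one_mul]
      exact hg₁
    set θ : H → G := fun h => g * h * g⁻¹ with hθ
    have hθR : θ ∈ R := by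
      have h1 : (fun h : H => c⁻¹ * cj g₁ h * c) = θ := by
        funext h
        rw [hθ, hcj, hgdef]
        group
      rwa [h1] at hcR
    have h1 := hγ θ ⟨g, rfl⟩
    have hcomm : ∀ h ∈ H, (γ θ)⁻¹ * g * h = h * ((γ θ)⁻¹ * g) := by
      intro h hh
      have h2 : g * h * g⁻¹ = γ θ * h * (γ θ)⁻¹ := congrFun h1 ⟨h, hh⟩
      have h3 : g * h = γ θ * h * (γ θ)⁻¹ * g := by
        rw [← h2, inv_mul_cancel_right]
      rw [mul_assoc, h3]
      group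
    refine ⟨(γ θ)⁻¹ * g, hcomm, ?_⟩
    have hcard : (0 : ℝ) < Fintype.card H := by
      exact_mod_cast Fintype.card_pos
    set y : W := π ((γ θ)⁻¹ * g) x with hy
    have hyinv : ∀ h ∈ H, π h y = y := by
      intro h hh
      have h5 : π h (π ((γ θ)⁻¹ * g) x) = π (h * ((γ θ)⁻¹ * g)) x := by
        rw [map_mul π h]
        rfl
      rw [hy, h5, ← hcomm h hh, map_mul π _ h]
      show π ((γ θ)⁻¹ * g) (π h x) = _
      rw [hfix h hh]
    have hy2 : A y = (Fintype.card H : ℝ) • y := by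
      rw [hA]
      have : ∀ h : H, π h y = y := fun h => hyinv h h.2
      simp only [this]
      rw [Finset.sum_const, Finset.card_univ, ← Nat.cast_smul_eq_nsmul ℝ]
    have hy3 : y = (Fintype.card H : ℝ)⁻¹ • A y := by
      rw [hy2, smul_smul, inv_mul_cancel₀ hcard.ne', one_smul]
    rw [hy3]
    refine cone_smul ?_ (by positivity)
    have h4 : y = π (γ θ)⁻¹ (π g x) := by
      rw [hy, map_mul]
      rfl
    rw [h4]
    have h5 : (A ∘ₗ ((π (γ θ)⁻¹ : W ≃ₗ[ℝ] W) : W →ₗ[ℝ] W)) (π g x) ∈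
        cone (F.image (A ∘ₗ ((π (γ θ)⁻¹ : W ≃ₗ[ℝ] W) : W →ₗ[ℝ] W))) := cone_image _ hg
    refine cone_mono ?_ h5
    exact Finset.subset_biUnion_of_mem (fun θ => F.image fun a => A (π (γ θ)⁻¹ a))
      (hR.mem_toFinset.2 hθR)

end Pool.Agent.P8H34
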