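import Pool.Agent.P8H34.PMap
import Pool.Agent.P8H34.GH

/-!
# The cones of a quotient, and the automorphisms which descend
-/

set_option autoImplicit false
set_option linter.overlappingInstances false
set_option linter.unusedSectionVars false

open FF Pool.Agent.W602.GT Pool.Agent.Y172 Pool.Agent.R887
open Pool.Agent.N110 Pool.Agent.N110.CC Pool.Agent.N492.PA Pool.Agent.N110.NV
open Pool.Agent.N165.KM (IntL Sandwich)
open Pool.Agent.Y167 (cone)

namespace Pool.Agent.P8H34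

section One

variable {K : Type} [Field K] [Algebra ℂ K] {N n ρ : ℕ} {y : Fin (N + 1) → K}
  {c : Place ℂ K → Fin ρ → ℤ}

theorem sandwich (hy : NormalModel y) (hn : Algebra.trdeg ℂ K = n) (hn0 : 0 < n)
    (hc : PicardBasis y c) (hint : (interior (nefCone y n c)).Nonempty) :
    Sandwich (nefCone y n c) (nefCone y n c ∩ effCone y c) := by
  have hsub : nefCone y n c ⊆ CE y c := (nef_sub_mov hy hn hn0 hc).trans (mov_sub hy hn hn0 hc)
  refine ⟨isClosed_closure, fun x hx z hz => closure_coneOf_add hx hz,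
    fun t ht x hx => closure_coneOf_smul hx ht,
    fun x hx hx' => (pc_eff hc.numClasses).pointed x (hsub hx) (hsub hx'), hint,
    Set.inter_subset_left, fun x hx => ⟨interior_subset hx, ?_⟩,
    fun x hx z hz => ⟨closure_coneOf_add hx.1 hz.1, coneOf_add hx.2 hz.2⟩,
    fun t ht x hx => ⟨closure_coneOf_smul hx.1 ht, coneOf_smul hx.2 ht⟩⟩
  exact (Pool.Agent.N40.CC.leafEFF K N ρ y hy c hc).2 (interior_mono hsub hx)

/-- the cone of nef effective classes is preserved by the automorphisms -/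
theorem pres_nef (hy : NormalModel y) {ψ : K ≃ₐ[ℂ] K} (hψ : IsAut ψ y)
    {T : (Fin ρ → ℝ) ≃ₗ[ℝ] (Fin ρ → ℝ)} (hT : IsPullBack y c ψ T) {x : Fin ρ → ℝ}
    (hx : x ∈ nefCone y n c) : T x ∈ nefCone y n c := by
  have hfr := Pool.Agent.N265.CC.leafFREE K N n y hy ψ hψ
  refine closure_coneOf_map T.toLinearMap ?_ hx
  rintro _ ⟨D, hD, rfl⟩
  have h4 := Pool.Agent.N608.CC.leafMOV K N ρ y hy c ψ hfr.1 T hT D hD.1
  exact ⟨_, hfr.2 D hD, h4.1.symm⟩

theorem pres_eff (hy : NormalModel y) {ψ : K ≃ₐ[ℂ] K} (hψ : IsAut ψ y)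
    {T : (Fin ρ → ℝ) ≃ₗ[ℝ] (Fin ρ → ℝ)} (hT : IsPullBack y c ψ T) {x : Fin ρ → ℝ}
    (hx : x ∈ effCone y c) : T x ∈ effCone y c := by
  refine coneOf_map T.toLinearMap ?_ hx
  rintro _ ⟨P, hP, rfl⟩
  have h1 : P = comap ψ (comap ψ⁻¹ P) := (comap_comap_inv ψ P).symm
  refine ⟨comap ψ⁻¹ P, (psaut_iff.1 (isAut_ps hy ((autGroup y).inv_mem hψ)) P).2 hP, ?_⟩
  exact hT P _ hP (image_iff.2 h1)

/-- the class of the prime divisor `P` -/
theorem divClass_single [DecidableEq (Place ℂ K)] {P : Place ℂ K} (hP : IsPrimeDivisor y P) :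
    divClass y c (fun Q => if Q = P then 1 else 0) = rcl c P := by
  classical
  unfold divClass
  have h1 : (∑ᶠ Q ∈ {Q : Place ℂ K | IsPrimeDivisor y Q}, (((if Q = P then 1 else 0 : ℤ)) : ℝ) •
      rcl c Q) = ∑ᶠ Q ∈ ({P} : Set (Place ℂ K)), (((if Q = P then 1 else 0 : ℤ)) : ℝ) •
      rcl c Q := by
    refine finsum_mem_inter_support_eq _ _ _ ?_
    ext Q
    constructor
    · rintro ⟨-, h0⟩
      refine ⟨?_, h0⟩
      by_contra h2
      apply h0
      change (((if Q = P then 1 else 0 : ℤ)) : ℝ) • rcl c Q = 0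
      rw [if_neg (fun h3 => h2 (Set.mem_singleton_iff.2 h3)), Int.cast_zero, zero_smul]
    · rintro ⟨h2, h0⟩
      refine ⟨?_, h0⟩
      rw [Set.mem_singleton_iff] at h2
      rw [h2]
      exact hP
  rw [h1, finsum_mem_singleton, if_pos rfl, Int.cast_one, one_smul]

theorem fin_one [DecidableEq (Place ℂ K)] (P : Place ℂ K) :
    {Q | IsPrimeDivisor y Q ∧ (if Q = P then (1 : ℤ) else 0) ≠ 0}.Finite := by
  refine (Set.finite_singleton P).subset ?_
  rintro Q ⟨-, h0⟩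
  by_contra h1
  exact h0 (if_neg h1)

theorem divClass_sum {ι : Type*} (s : Finset ι) {D : ι → Place ℂ K → ℤ}
    (hD : ∀ i ∈ s, {P | IsPrimeDivisor y P ∧ D i P ≠ 0}.Finite) :
    divClass y c (fun P => ∑ i ∈ s, D i P) = ∑ i ∈ s, divClass y c (D i) := by
  classical
  have hQ : ∀ i ∈ s, Fin0 y (fun P => (D i P : ℚ)) := by
    intro i hi
    refine (hD i hi).subset ?_
    rintro P ⟨hP, h0⟩
    exact ⟨hP, fun h => h0 (by beta_reduce; rw [h, Int.cast_zero])⟩
  have hS : {P | IsPrimeDivisor y P ∧ ∑ i ∈ s, D i P ≠ 0}.Finite := by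
    refine (s.finite_toSet.biUnion hD).subset ?_
    rintro P ⟨hP, h0⟩
    obtain ⟨i, hi, h1⟩ := Finset.exists_ne_zero_of_sum_ne_zero h0
    exact Set.mem_biUnion (Finset.mem_coe.2 hi) ⟨hP, h1⟩
  rw [Pool.Agent.N681.CC.divClass_eq c hS]
  have h1 : (fun P => ((∑ i ∈ s, D i P : ℤ) : ℚ)) = fun P => ∑ i ∈ s, (D i P : ℚ) := by
    funext P
    push_cast
    rfl
  rw [h1, cls_sum s hQ, toR_sum]
  exact Finset.sum_congr rfl fun i hi => (Pool.Agent.N681.CC.divClass_eq c (hD i hi)).symm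

theorem divClass_mul (M : ℕ) {D : Place ℂ K → ℤ}
    (hD : {P | IsPrimeDivisor y P ∧ D P ≠ 0}.Finite) :
    divClass y c (fun P => M * D P) = (M : ℝ) • divClass y c D := by
  have h1 : (fun P => (M : ℤ) * D P) = fun P => ∑ i ∈ Finset.range M, D P := by
    funext P
    rw [Finset.sum_const, Finset.card_range, nsmul_eq_mul]
  rw [h1, divClass_sum _ fun _ _ => hD, Finset.sum_const, Finset.card_range,
    ← Nat.cast_smul_eq_nsmul ℝ]

theorem divClass_congr {D D' : Place ℂ K → ℤ} (h : ∀ P, IsPrimeDivisor y P → D P = D' P) :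
    divClass y c D = divClass y c D' := by
  unfold divClass
  refine finsum_congr fun P => finsum_congr fun hP => ?_
  rw [h P hP]

end One

section Two

variable {K K' : Type} [Field K] [Algebra ℂ K] [Field K'] [Algebra ℂ K'] {N N' n ρ ρ' : ℕ}
  {y : Fin (N + 1) → K} {y' : Fin (N' + 1) → K'} {π : K →ₐ[ℂ] K'}
  {Φ : Subgroup (K' ≃ₐ[ℂ] K')} {c : Place ℂ K → Fin ρ → ℤ} {c' : Place ℂ K' → Fin ρ' → ℤ}
  {M' : (K' ≃ₐ[ℂ] K') → Matrix (Fin ρ') (Fin ρ') ℤ}

/-- the sum over the group -/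
noncomputable def Av (hM : Rep y' c' (autGroup y') M') (hΦ : Φ ≤ autGroup y') [Fintype Φ] :
    (Fin ρ' → ℝ) →ₗ[ℝ] (Fin ρ' → ℝ) :=
  ∑ φ : Φ, ((hM.TE ⟨φ, hΦ φ.2⟩ : (Fin ρ' → ℝ) ≃ₗ[ℝ] (Fin ρ' → ℝ)) :
    (Fin ρ' → ℝ) →ₗ[ℝ] (Fin ρ' → ℝ))

theorem Av_apply (hM : Rep y' c' (autGroup y') M') (hΦ : Φ ≤ autGroup y') [Fintype Φ]
    (x : Fin ρ' → ℝ) : Av hM hΦ x = ∑ φ : Φ, hM.TE ⟨φ, hΦ φ.2⟩ x := by
  simp only [Av, LinearMap.sum_apply, LinearEquiv.coe_coe]

theorem Av_div (hy' : NormalModel y') (hM : Rep y' c' (autGroup y') M') (hΦ : Φ ≤ autGroup y')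
    [Fintype Φ] {D : Place ℂ K' → ℤ} (hD : {Q | IsPrimeDivisor y' Q ∧ D Q ≠ 0}.Finite) :
    Av hM hΦ (divClass y' c' D) = divClass y' c' (avg Φ D) := by
  rw [Av_apply]
  unfold avg
  rw [divClass_sum _ fun φ _ => comap_fin hy' (hΦ φ.2) hD]
  refine Finset.sum_congr rfl fun φ _ => ?_
  exact (Pool.Agent.N608.CC.leafMOV K' N' ρ' y' hy' c' φ (isAut_ps hy' (hΦ φ.2)) _
    (hM.isPull ⟨φ, hΦ φ.2⟩) D hD).1.symm

theorem IsQuot.le (hQt : IsQuot π Φ y y') : Φ ≤ autGroup y' := hQt.aut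

/-- the data of a quotient: the pull back of the numerical classes -/
structure PData (π : K →ₐ[ℂ] K') (y : Fin (N + 1) → K) (y' : Fin (N' + 1) → K')
    (c : Place ℂ K → Fin ρ → ℤ) (c' : Place ℂ K' → Fin ρ' → ℤ)
    (p : (Fin ρ → ℝ) →ₗ[ℝ] (Fin ρ' → ℝ)) (B : (Fin ρ' → ℝ) →ₗ[ℝ] (Fin ρ → ℝ)) : Prop where
  left : ∀ x, B (p x) = x
  rat : ∀ z ∈ IntL ρ', ∃ k : ℕ, 1 ≤ k ∧ (k : ℝ) • B z ∈ IntL ρ
  div : ∀ D : Place ℂ K → ℤ, {P | IsPrimeDivisor y P ∧ D P ≠ 0}.Finite →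
    p (divClass y c D) = divClass y' c' (pbd π D)

variable {p : (Fin ρ → ℝ) →ₗ[ℝ] (Fin ρ' → ℝ)} {B : (Fin ρ' → ℝ) →ₗ[ℝ] (Fin ρ → ℝ)}

theorem PData.inj (hp : PData π y y' c c' p B) : Function.Injective p :=
  Function.LeftInverse.injective hp.left

/-- **The norm of a divisor class.** -/
theorem Av_down (hy' : NormalModel y') (hn : Algebra.trdeg ℂ K = n)
    (hn' : Algebra.trdeg ℂ K' = n) (hQt : IsQuot π Φ y y') [Fintype Φ]
    (hM : Rep y' c' (autGroup y') M') (hp : PData π y y' c c' p B) {D' : Place ℂ K' → ℤ}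
    (hD' : {Q | IsPrimeDivisor y' Q ∧ D' Q ≠ 0}.Finite) :
    ∃ m : ℝ, 0 < m ∧ ∃ D : Place ℂ K → ℤ, {P | IsPrimeDivisor y P ∧ D P ≠ 0}.Finite ∧
      Av hM hQt.le (divClass y' c' D') = p (m • divClass y c D) ∧
      ((∀ Q, IsPrimeDivisor y' Q → 0 ≤ D' Q) → ∀ P, IsPrimeDivisor y P → 0 ≤ D P) ∧
      (IsFree y' n D' → IsFree y n D) := by
  obtain ⟨m, hm, D, hfin, hD⟩ := exists_down hy' hn hn' hQt hD'
  have hm0 : (0 : ℝ) < m := by exact_mod_cast hm
  refine ⟨(m : ℝ)⁻¹, inv_pos.2 hm0, D, hfin, ?_, fun h0 P hP => eff_down hy' hn hn' hQt h0 hD hP,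
    fun hf => free_down hy' hn hn' hQt hf hm hfin hD⟩
  have h1 : divClass y' c' (pbd π D) = (m : ℝ) • divClass y' c' (avg Φ D') := by
    rw [← divClass_mul m (avg_fin hy' hQt hD')]
    refine divClass_congr fun Q hQ => ?_
    obtain ⟨P, e, h⟩ := exists_res π hy' hn hn' Q
    rw [pbd_eq D h]
    exact hD Q P e hQ h
  rw [Av_div hy' hM hQt.aut hD', map_smul, hp.div D hfin, h1, smul_smul, inv_mul_cancel₀ hm0.ne',
    one_smul]

theorem Av_range (hy' : NormalModel y') (hn : Algebra.trdeg ℂ K = n)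
    (hn' : Algebra.trdeg ℂ K' = n) (hQt : IsQuot π Φ y y') [Fintype Φ]
    (hM : Rep y' c' (autGroup y') M') (hp : PData π y y' c c' p B) (hc' : PicardBasis y' c')
    (w : Fin ρ' → ℝ) : p (B (Av hM hQt.le w)) = Av hM hQt.le w := by
  classical
  have h1 := span_rcl hc' w
  induction h1 using Submodule.span_induction with
  | mem z hz =>
    obtain ⟨Q, hQ, rfl⟩ := hz
    obtain ⟨m, -, D, -, h, -⟩ := Av_down hy' hn hn' hQt hM hp (fin_one (y := y') Q)
    rw [divClass_single hQ] at h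
    rw [h, hp.left]
  | zero => simp only [map_zero]
  | add a b _ _ ha hb => rw [map_add, map_add, map_add, ha, hb]
  | smul t a _ ha => rw [map_smul, map_smul, map_smul, ha]

/-- the classes in the image are invariant -/
theorem inv_p (hy' : NormalModel y') (hn : Algebra.trdeg ℂ K = n)
    (hn' : Algebra.trdeg ℂ K' = n) (hQt : IsQuot π Φ y y')
    (hM : Rep y' c' (autGroup y') M') (hp : PData π y y' c c' p B) (hc : PicardBasis y c)
    {φ : K' ≃ₐ[ℂ] K'} (hφ : φ ∈ Φ) (x : Fin ρ → ℝ) :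
    hM.TE ⟨φ, hQt.le hφ⟩ (p x) = p x := by
  classical
  have h1 := span_rcl hc x
  induction h1 using Submodule.span_induction with
  | mem z hz =>
    obtain ⟨P, hP, rfl⟩ := hz
    have hfin := fin_one (y := y) P
    rw [← divClass_single (c := c) hP, hp.div _ hfin]
    have h2 := (Pool.Agent.N608.CC.leafMOV K' N' ρ' y' hy' c' φ (isAut_ps hy' (hQt.aut φ hφ)) _
      (hM.isPull ⟨φ, hQt.le hφ⟩) _ (pbd_fin (A := ℤ) hy' hn hn' hQt.map hfin)).1
    rw [← h2]
    congr 1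
    funext Q
    obtain ⟨P', e, h⟩ := exists_res π hy' hn hn' Q
    rw [pbd_eq _ h, pbd_eq _ (LiesOver.comap hQt.toIsGal h hφ)]
  | zero => simp only [map_zero]
  | add a b _ _ ha hb => rw [map_add, map_add, ha, hb]
  | smul t a _ ha => rw [map_smul, map_smul, ha]

theorem Av_p (hy' : NormalModel y') (hn : Algebra.trdeg ℂ K = n)
    (hn' : Algebra.trdeg ℂ K' = n) (hQt : IsQuot π Φ y y') [Fintype Φ]
    (hM : Rep y' c' (autGroup y') M') (hp : PData π y y' c c' p B) (hc : PicardBasis y c)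
    (x : Fin ρ → ℝ) : Av hM hQt.le (p x) = (Fintype.card Φ : ℝ) • p x := by
  rw [Av_apply]
  simp only [inv_p hy' hn hn' hQt hM hp hc (Subtype.coe_prop _)]
  rw [Finset.sum_const, Finset.card_univ, ← Nat.cast_smul_eq_nsmul ℝ]

/-- an invariant class is in the image -/
theorem p_B (hy' : NormalModel y') (hn : Algebra.trdeg ℂ K = n)
    (hn' : Algebra.trdeg ℂ K' = n) (hQt : IsQuot π Φ y y') [Fintype Φ]
    (hM : Rep y' c' (autGroup y') M') (hp : PData π y y' c c' p B) (hc' : PicardBasis y' c')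
    {w : Fin ρ' → ℝ} (hw : ∀ φ, ∀ hφ : φ ∈ Φ, hM.TE ⟨φ, hQt.le hφ⟩ w = w) : p (B w) = w := by
  have h1 := Av_range hy' hn hn' hQt hM hp hc' w
  have h2 : Av hM hQt.le w = (Fintype.card Φ : ℝ) • w := by
    rw [Av_apply]
    simp only [hw _ (Subtype.coe_prop _)]
    rw [Finset.sum_const, Finset.card_univ, ← Nat.cast_smul_eq_nsmul ℝ]
  have h3 : (Fintype.card Φ : ℝ) ≠ 0 := by
    have : 0 < Fintype.card Φ := Fintype.card_pos
    exact_mod_cast this.ne'
  rw [h2, map_smul, map_smul] at h1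
  exact smul_right_injective _ h3 h1

/-- **Effective classes** on the quotient. -/
theorem eff_iff (hy' : NormalModel y') (hn : Algebra.trdeg ℂ K = n)
    (hn' : Algebra.trdeg ℂ K' = n) (hQt : IsQuot π Φ y y') [Fintype Φ]
    (hM : Rep y' c' (autGroup y') M') (hp : PData π y y' c c' p B) (hc : PicardBasis y c)
    {x : Fin ρ → ℝ} : x ∈ effCone y c ↔ p x ∈ effCone y' c' := by
  classical
  have heff : ∀ {K : Type} [Field K] [Algebra ℂ K] {N ρ : ℕ} {y : Fin (N + 1) → K}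
      {c : Place ℂ K → Fin ρ → ℤ} (D : Place ℂ K → ℤ),
      {P | IsPrimeDivisor y P ∧ D P ≠ 0}.Finite → (∀ P, IsPrimeDivisor y P → 0 ≤ D P) →
      divClass y c D ∈ effCone y c := by
    intro K _ _ N ρ y c D hD h0
    have h1 : divClass y c D = ∑ P ∈ hD.toFinset, (D P : ℝ) • rcl c P := by
      unfold divClass
      refine finsum_mem_eq_sum_of_inter_support_eq _ ?_
      ext P
      constructor
      · rintro ⟨hP, h0⟩
        refine ⟨?_, h0⟩
        rw [Finset.mem_coe, hD.mem_toFinset]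
        refine ⟨hP, fun h3 => h0 ?_⟩
        change (D P : ℝ) • rcl c P = 0
        rw [h3, Int.cast_zero, zero_smul]
      · rintro ⟨hP, h0⟩
        rw [Finset.mem_coe, hD.mem_toFinset] at hP
        exact ⟨hP.1, h0⟩
    rw [h1]
    refine Finset.sum_induction _ (· ∈ effCone y c) (fun a b ha hb => coneOf_add ha hb)
      (coneOf_zero _) fun P hP => ?_
    have hP1 : IsPrimeDivisor y P := (hD.mem_toFinset.1 hP).1
    have h2 : rcl c P ∈ effCone y c := coneOf_self ⟨P, hP1, rfl⟩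
    refine coneOf_smul h2 ?_
    exact_mod_cast h0 P hP1
  constructor
  · intro hx
    refine coneOf_ind (p := fun x => p x ∈ effCone y' c') (by rw [map_zero]; exact coneOf_zero _)
      (fun a b ha hb => by rw [map_add]; exact coneOf_add ha hb)
      (fun t a ht ha => by rw [map_smul]; exact coneOf_smul ha ht) ?_ hx
    rintro _ ⟨P, hP, rfl⟩
    have hfin := fin_one (y := y) P
    rw [← divClass_single (c := c) hP, hp.div _ hfin]
    refine heff _ (pbd_fin (A := ℤ) hy' hn hn' hQt.map hfin) fun Q _ => ?_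
    obtain ⟨P', e, h⟩ := exists_res π hy' hn hn' Q
    rw [pbd_eq _ h]
    refine mul_nonneg (Int.natCast_nonneg e) ?_
    beta_reduce
    split_ifs <;> norm_num
  · intro hx
    have hcard : (0 : ℝ) < Fintype.card Φ := by exact_mod_cast Fintype.card_pos
    have h1 : B (Av hM hQt.le (p x)) ∈ effCone y c := by
      refine coneOf_ind (p := fun z => B (Av hM hQt.le z) ∈ effCone y c) (by
        rw [map_zero, map_zero]; exact coneOf_zero _)
        (fun a b ha hb => by rw [map_add, map_add]; exact coneOf_add ha hb)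
        (fun t a ht ha => by rw [map_smul, map_smul]; exact coneOf_smul ha ht) ?_ hx
      rintro _ ⟨Q, hQ, rfl⟩
      obtain ⟨m, hm, D, hfin, h, h2, -⟩ := Av_down hy' hn hn' hQt hM hp (fin_one (y := y') Q)
      rw [divClass_single hQ] at h
      rw [h, hp.left]
      refine coneOf_smul (heff D hfin (h2 fun Q' _ => ?_)) hm.le
      split_ifs <;> norm_num
    rw [Av_p hy' hn hn' hQt hM hp hc, map_smul, hp.left] at h1
    have h2 := coneOf_smul h1 (inv_nonneg.2 hcard.le)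
    rwa [smul_smul, inv_mul_cancel₀ hcard.ne', one_smul] at h2

/-- **Nef classes** on the quotient. -/
theorem nef_iff (hy' : NormalModel y') (hn : Algebra.trdeg ℂ K = n)
    (hn' : Algebra.trdeg ℂ K' = n) (hQt : IsQuot π Φ y y') [Fintype Φ]
    (hM : Rep y' c' (autGroup y') M') (hp : PData π y y' c c' p B) (hc : PicardBasis y c)
    {x : Fin ρ → ℝ} : x ∈ nefCone y n c ↔ p x ∈ nefCone y' n c' := by
  classical
  constructor
  · intro hx
    refine map_mem_closure (LinearMap.continuous_of_finiteDimensional p) hx fun x hx => ?_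
    refine coneOf_ind (p := fun x => p x ∈ coneOf {z | ∃ D, IsFree y' n D ∧ z = divClass y' c' D})
      (by rw [map_zero]; exact coneOf_zero _)
      (fun a b ha hb => by rw [map_add]; exact coneOf_add ha hb)
      (fun t a ht ha => by rw [map_smul]; exact coneOf_smul ha ht) ?_ hx
    rintro _ ⟨D, hD, rfl⟩
    rw [hp.div D hD.1]
    exact coneOf_self ⟨_, free_up hy' hn hn' hQt hD, rfl⟩
  · intro hx
    have hcard : (0 : ℝ) < Fintype.card Φ := by exact_mod_cast Fintype.card_pos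
    have h1 : B (Av hM hQt.le (p x)) ∈ nefCone y n c := by
      refine map_mem_closure (f := fun z => B (Av hM hQt.le z))
        (LinearMap.continuous_of_finiteDimensional (B ∘ₗ Av hM hQt.le)) hx fun z hz => ?_
      refine coneOf_ind (p := fun z => B (Av hM hQt.le z) ∈ coneOf {z | ∃ D, IsFree y n D ∧
          z = divClass y c D}) (by
        rw [map_zero, map_zero]; exact coneOf_zero _)
        (fun a b ha hb => by rw [map_add, map_add]; exact coneOf_add ha hb)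
        (fun t a ht ha => by rw [map_smul, map_smul]; exact coneOf_smul ha ht) ?_ hz
      rintro _ ⟨D', hD', rfl⟩
      obtain ⟨m, hm, D, hfin, h, -, h2⟩ := Av_down hy' hn hn' hQt hM hp hD'.1
      rw [h, hp.left]
      have h3 : divClass y c D ∈ coneOf {z | ∃ D, IsFree y n D ∧ z = divClass y c D} :=
        coneOf_self ⟨D, h2 hD', rfl⟩
      exact coneOf_smul h3 hm.le
    rw [Av_p hy' hn hn' hQt hM hp hc, map_smul, hp.left] at h1
    have h2 := closure_coneOf_smul h1 (inv_nonneg.2 hcard.le)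
    rwa [smul_smul, inv_mul_cancel₀ hcard.ne', one_smul] at h2

/-- **Descent of automorphisms** which commute with the group. -/
theorem exists_desc (hQt : IsQuot π Φ y y') {ψ' : K' ≃ₐ[ℂ] K'}
    (hcomm : ∀ φ ∈ Φ, ψ' * φ = φ * ψ') : ∃ ψ : K ≃ₐ[ℂ] K, ∀ f, π (ψ f) = ψ' (π f) := by
  have hinj : Function.Injective π := π.toRingHom.injective
  have h1 : ∀ χ : K' ≃ₐ[ℂ] K', (∀ φ ∈ Φ, χ * φ = φ * χ) → ∀ f : K, ∃ g : K, π g = χ (π f) := by
    intro χ hχ f
    rw [← hQt.fixed]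
    intro φ hφ
    have h2 : φ (χ (π f)) = (φ * χ) (π f) := rfl
    rw [h2, ← hχ φ hφ]
    show χ (φ (π f)) = χ (π f)
    rw [(hQt.fixed (π f)).2 ⟨f, rfl⟩ φ hφ]
  have hcomm' : ∀ φ ∈ Φ, ψ'⁻¹ * φ = φ * ψ'⁻¹ := by
    intro φ hφ
    have h2 := hcomm φ hφ
    calc ψ'⁻¹ * φ = ψ'⁻¹ * (φ * ψ') * ψ'⁻¹ := by group
      _ = ψ'⁻¹ * (ψ' * φ) * ψ'⁻¹ := by rw [h2]
      _ = φ * ψ'⁻¹ := by group
  choose s hs using h1 ψ' hcomm
  choose t ht using h1 ψ'⁻¹ hcomm'
  have hst : ∀ f, s (t f) = f := by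
    intro f
    apply hinj
    rw [hs, ht]
    exact ψ'.apply_symm_apply (π f)
  have hts : ∀ f, t (s f) = f := by
    intro f
    apply hinj
    rw [ht, hs]
    exact ψ'.symm_apply_apply (π f)
  refine ⟨{ toFun := s
            invFun := t
            left_inv := hts
            right_inv := hst
            map_mul' := fun a b => hinj (by rw [hs, map_mul, map_mul, map_mul, hs, hs])
            map_add' := fun a b => hinj (by rw [hs, map_add, map_add, map_add, hs, hs])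
            commutes' := fun r => hinj (by rw [hs, π.commutes, ψ'.commutes]) }, hs⟩

variable {ψ : K ≃ₐ[ℂ] K} {ψ' : K' ≃ₐ[ℂ] K'}

theorem over_comap (h : ∀ f, π (ψ f) = ψ' (π f)) {Q : Place ℂ K'} {P : Place ℂ K} {e : ℕ}
    (hQ : LiesOver π Q P e) : LiesOver π (comap ψ' Q) (comap ψ P) e := by
  refine ⟨hQ.1, fun f => ?_⟩
  rw [comap_ord, comap_ord, ← h, hQ.2]

theorem aut_desc (hy' : NormalModel y') (hn : Algebra.trdeg ℂ K = n)
    (hn' : Algebra.trdeg ℂ K' = n) (hQt : IsQuot π Φ y y') (h : ∀ f, π (ψ f) = ψ' (π f))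
    (hψ' : IsAut ψ' y') : IsAut ψ y := by
  intro P Q hPQ g
  rw [image_iff] at hPQ
  subst hPQ
  obtain ⟨Q', e, hQ⟩ := exists_ext π hy' hn hn' Q
  rw [hQt.loc _ _ _ (over_comap h hQ) g, aut_local hψ', ← h, ← hQt.loc _ _ _ hQ]

theorem pull_desc (hy : NormalModel y) (hy' : NormalModel y') (hn : Algebra.trdeg ℂ K = n)
    (hn' : Algebra.trdeg ℂ K' = n) (hQt : IsQuot π Φ y y') (hp : PData π y y' c c' p B)
    (hc : PicardBasis y c) (h : ∀ f, π (ψ f) = ψ' (π f)) (hψ' : IsAut ψ' y')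
    {T : (Fin ρ → ℝ) ≃ₗ[ℝ] (Fin ρ → ℝ)} {T' : (Fin ρ' → ℝ) ≃ₗ[ℝ] (Fin ρ' → ℝ)}
    (hT : IsPullBack y c ψ T) (hT' : IsPullBack y' c' ψ' T') (x : Fin ρ → ℝ) :
    p (T x) = T' (p x) := by
  classical
  have h1 := span_rcl hc x
  induction h1 using Submodule.span_induction with
  | mem z hz =>
    obtain ⟨P, hP, rfl⟩ := hz
    have hfin := fin_one (y := y) P
    have hψ := aut_desc hy' hn hn' hQt h hψ'
    have h2 := (Pool.Agent.N608.CC.leafMOV K N ρ y hy c ψ (isAut_ps hy hψ) T hT _ hfin).1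
    have h3 := (Pool.Agent.N608.CC.leafMOV K' N' ρ' y' hy' c' ψ' (isAut_ps hy' hψ') T' hT' _
      (pbd_fin (A := ℤ) hy' hn hn' hQt.map hfin)).1
    rw [← divClass_single (c := c) hP, hp.div _ hfin, ← h2, ← h3, hp.div _ (comap_fin hy hψ hfin)]
    congr 1
    funext Q
    obtain ⟨P', e, hQ⟩ := exists_res π hy' hn hn' Q
    rw [pbd_eq _ hQ, pbd_eq _ (over_comap h hQ)]
  | zero => simp only [map_zero]
  | add a b _ _ ha hb => rw [map_add, map_add, map_add, map_add, ha, hb]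
  | smul t a _ ha => rw [map_smul, map_smul, map_smul, map_smul, ha]

end Two

end Pool.Agent.P8H34
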