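import Pool.Agent.N110.CC.Defs
import Pool.Agent.N110.CC.RDefs

/-!
# Definitions: quotients by finite groups, and automorphisms which act trivially on the classes
-/

set_option autoImplicit false

open FF Pool.Agent.W602.GT Pool.Agent.Y172 Pool.Agent.R887
open Pool.Agent.N110 Pool.Agent.N110.CC

namespace Pool.Agent.P8H34

section

variable {K K' : Type} [Field K] [Algebra ℂ K] [Field K'] [Algebra ℂ K'] {N N' : ℕ}

/-- `K'` is a Galois extension of `K`, embedded by `π`, with the finite group `Φ`: the elements of `K'`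
which are fixed by `Φ` are those of `K`. -/
structure IsGal (π : K →ₐ[ℂ] K') (Φ : Subgroup (K' ≃ₐ[ℂ] K')) : Prop where
  finite : Finite Φ
  fixed : ∀ f : K', (∀ φ ∈ Φ, φ f = f) ↔ ∃ g : K, π g = f

/-- `X` is the quotient `X' / Φ` of `X'` by the finite group `Φ` of automorphisms of `X'`; `π` is the
inclusion of the function fields. The map `X' → X` is finite in codimension one, and the local ring of
`X` at the image of a point of `X'` consists of the elements of the local ring of `X'` at this point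
which are in the function field of `X`. (The points are the centres of the places `Q` and `P`.) -/
structure IsQuot (π : K →ₐ[ℂ] K') (Φ : Subgroup (K' ≃ₐ[ℂ] K')) (y : Fin (N + 1) → K)
    (y' : Fin (N' + 1) → K') : Prop extends IsGal π Φ where
  aut : ∀ φ ∈ Φ, IsAut φ y'
  map : FiniteMap π y y'
  loc : ∀ Q P e, LiesOver π Q P e → ∀ f, f ∈ localRing y P ↔ π f ∈ localRing y' Q

end

/-- Let `𝒮` be a group of automorphisms of `X'`. The elements of `𝒮` which act trivially on the
numerical classes form an extension of a finite group by the group `D`; here `D` is commutative and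
divisible, it has finitely many elements of each order, and it is normalised by `𝒮`. -/
structure KernelType {K' : Type} [Field K'] [Algebra ℂ K'] {N' ρ' : ℕ} (y' : Fin (N' + 1) → K')
    (c' : Place ℂ K' → Fin ρ' → ℤ) (𝒮 D : Subgroup (K' ≃ₐ[ℂ] K')) : Prop where
  le : D ≤ 𝒮
  triv : ∀ a ∈ D, IsPullBack y' c' a 1
  comm : ∀ a ∈ D, ∀ b ∈ D, a * b = b * a
  div : ∀ a ∈ D, ∀ m : ℕ, 0 < m → ∃ b ∈ D, b ^ m = a
  tors : ∀ m : ℕ, 0 < m → {a | a ∈ D ∧ a ^ m = 1}.Finite
  normal : ∀ ψ ∈ 𝒮, ∀ a ∈ D, ψ * a * ψ⁻¹ ∈ D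
  index : ∃ T : Set (K' ≃ₐ[ℂ] K'), T.Finite ∧
    ∀ ψ ∈ 𝒮, IsPullBack y' c' ψ 1 → ∃ t ∈ T, t⁻¹ * ψ ∈ D

end Pool.Agent.P8H34
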