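import Pool.Agent.P8H34.Chart

/-!
# Divisors on quotients: pull back, averages and norms
-/

set_option autoImplicit false
set_option linter.overlappingInstances false
set_option linter.unusedSectionVars false

open FF Pool.Agent.W602.GT Pool.Agent.Y172 Pool.Agent.R887
open Pool.Agent.N110 Pool.Agent.N110.CC Pool.Agent.N492.PA

namespace Pool.Agent.P8H34

section Div

variable {K K' : Type} [Field K] [Algebra ℂ K] [Field K'] [Algebra ℂ K']

open scoped Classical in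
/-- the pull back of a divisor -/
noncomputable def pbd (π : K →ₐ[ℂ] K') {A : Type} [Ring A] (D : Place ℂ K → A) (Q : Place ℂ K') : A :=
  if h : ∃ P e, LiesOver π Q P e then (h.choose_spec.choose : A) * D h.choose else 0

theorem pbd_eq {π : K →ₐ[ℂ] K'} {A : Type} [Ring A] (D : Place ℂ K → A) {Q : Place ℂ K'}
    {P : Place ℂ K} {e : ℕ} (h : LiesOver π Q P e) : pbd π D Q = e * D P := by
  have hex : ∃ P e, LiesOver π Q P e := ⟨P, e, h⟩
  obtain ⟨h1, h2⟩ := LiesOver.unique hex.choose_spec.choose_spec h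
  unfold pbd
  rw [dif_pos hex, h2, h1]

theorem pbd_cast (π : K →ₐ[ℂ] K') (D : Place ℂ K → ℤ) (Q : Place ℂ K') :
    ((pbd π D Q : ℤ) : ℚ) = pbd π (fun P => (D P : ℚ)) Q := by
  unfold pbd
  split_ifs
  · push_cast
    rfl
  · simp

variable {N N' n : ℕ} {y : Fin (N + 1) → K} {y' : Fin (N' + 1) → K'} {π : K →ₐ[ℂ] K'}
  {Φ : Subgroup (K' ≃ₐ[ℂ] K')}

theorem pbd_fin (hy' : NormalModel y') (hn : Algebra.trdeg ℂ K = n)
    (hn' : Algebra.trdeg ℂ K' = n) (hmap : FiniteMap π y y') {A : Type} [Ring A]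
    {D : Place ℂ K → A} (hD : {P | IsPrimeDivisor y P ∧ D P ≠ 0}.Finite) :
    {Q | IsPrimeDivisor y' Q ∧ pbd π D Q ≠ 0}.Finite := by
  refine (finite_ext π hy' hn hn' hD).subset ?_
  rintro Q ⟨hQ, h0⟩
  obtain ⟨P, e, h⟩ := exists_res π hy' hn hn' Q
  rw [pbd_eq D h] at h0
  exact ⟨P, ⟨(hmap Q P e h).1 hQ, right_ne_zero_of_mul h0⟩, e, h⟩

/-- the sum of the translates of a divisor -/
def avg (Φ : Subgroup (K' ≃ₐ[ℂ] K')) [Fintype Φ] (D : Place ℂ K' → ℤ) (Q : Place ℂ K') : ℤ :=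
  ∑ φ : Φ, D (comap (φ : K' ≃ₐ[ℂ] K') Q)

theorem avg_comap [Fintype Φ] (D : Place ℂ K' → ℤ) (Q : Place ℂ K') {ψ : K' ≃ₐ[ℂ] K'}
    (hψ : ψ ∈ Φ) : avg Φ D (comap ψ Q) = avg Φ D Q := by
  unfold avg
  rw [← Equiv.sum_comp (Equiv.mulLeft (⟨ψ, hψ⟩ : Φ)) fun φ : Φ =>
    D (comap (φ : K' ≃ₐ[ℂ] K') Q)]
  rfl

theorem psaut_of_aut (hy' : NormalModel y') {φ : K' ≃ₐ[ℂ] K'} (hφ : IsAut φ y') :
    PseudoAut φ y' :=
  (Pool.Agent.N265.CC.leafFREE K' N' 0 y' hy' φ hφ).1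

theorem prime_comap (hy' : NormalModel y') {φ : K' ≃ₐ[ℂ] K'} (hφ : IsAut φ y') {Q : Place ℂ K'} :
    IsPrimeDivisor y' (comap φ Q) ↔ IsPrimeDivisor y' Q :=
  psaut_iff.1 (psaut_of_aut hy' hφ) Q

theorem through_comap {φ : K' ≃ₐ[ℂ] K'} (hφ : IsAut φ y') {P Q : Place ℂ K'}
    (h : Through y' P Q) : Through y' (comap φ P) (comap φ Q) := by
  intro f hf
  rw [aut_local hφ] at hf
  exact comap_reg.2 (h _ hf)

theorem comap_fin (hy' : NormalModel y') {φ : K' ≃ₐ[ℂ] K'} (hφ : IsAut φ y')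
    {D : Place ℂ K' → ℤ} (hD : {Q | IsPrimeDivisor y' Q ∧ D Q ≠ 0}.Finite) :
    {Q | IsPrimeDivisor y' Q ∧ D (comap φ Q) ≠ 0}.Finite := by
  refine (hD.image fun Q => comap φ⁻¹ Q).subset ?_
  rintro Q ⟨hQ, h0⟩
  exact ⟨comap φ Q, ⟨(prime_comap hy' hφ).2 hQ, h0⟩, comap_inv_comap φ Q⟩

theorem avg_fin (hy' : NormalModel y') (hQt : IsQuot π Φ y y') [Fintype Φ]
    {D : Place ℂ K' → ℤ} (hD : {Q | IsPrimeDivisor y' Q ∧ D Q ≠ 0}.Finite) :
    {Q | IsPrimeDivisor y' Q ∧ avg Φ D Q ≠ 0}.Finite := by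
  refine (Set.finite_iUnion fun φ : Φ => comap_fin hy' (hQt.aut φ φ.2) hD).subset ?_
  rintro Q ⟨hQ, h0⟩
  obtain ⟨φ, -, hφ⟩ := Finset.exists_ne_zero_of_sum_ne_zero h0
  exact Set.mem_iUnion.2 ⟨φ, hQ, hφ⟩

/-- **A multiple of the sum of the translates of a divisor is a pull back.** -/
theorem exists_down (hy' : NormalModel y') (hn : Algebra.trdeg ℂ K = n)
    (hn' : Algebra.trdeg ℂ K' = n) (hQt : IsQuot π Φ y y') [Fintype Φ] {D' : Place ℂ K' → ℤ}
    (hD' : {Q | IsPrimeDivisor y' Q ∧ D' Q ≠ 0}.Finite) :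
    ∃ M : ℕ, 1 ≤ M ∧ ∃ D : Place ℂ K → ℤ, {P | IsPrimeDivisor y P ∧ D P ≠ 0}.Finite ∧
      ∀ Q P e, IsPrimeDivisor y' Q → LiesOver π Q P e → (e : ℤ) * D P = M * avg Φ D' Q := by
  classical
  choose res ram hres using exists_res π hy' hn hn'
  have hT := avg_fin hy' hQt hD'
  obtain ⟨M, hM⟩ : ∃ M : ℕ, M = ∏ Q ∈ hT.toFinset, ram Q := ⟨_, rfl⟩
  have hM1 : 1 ≤ M := by
    rw [hM]
    exact Finset.one_le_prod' fun Q _ => (hres Q).1
  have hdvd : ∀ Q, IsPrimeDivisor y' Q → (ram Q : ℤ) ∣ M * avg Φ D' Q := by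
    intro Q hQ
    by_cases h0 : avg Φ D' Q = 0
    · rw [h0, mul_zero]
      exact dvd_zero _
    · refine Dvd.dvd.mul_right ?_ _
      rw [hM]
      exact_mod_cast Finset.dvd_prod_of_mem ram (hT.mem_toFinset.2 ⟨hQ, h0⟩)
  let D : Place ℂ K → ℤ := fun P =>
    if h : ∃ Q e, LiesOver π Q P e ∧ IsPrimeDivisor y' Q then
      (M * avg Φ D' h.choose) / (ram h.choose) else 0
  have hD : ∀ Q P e, IsPrimeDivisor y' Q → LiesOver π Q P e →
      (e : ℤ) * D P = M * avg Φ D' Q := by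
    intro Q P e hQ h
    have hex : ∃ Q e, LiesOver π Q P e ∧ IsPrimeDivisor y' Q := ⟨Q, e, h, hQ⟩
    obtain ⟨e', h1, h2⟩ := hex.choose_spec
    obtain ⟨φ, hφ, h3⟩ := transitive hQt.toIsGal h1 h
    have h4 : e = e' := (LiesOver.unique h (h3 ▸ LiesOver.comap hQt.toIsGal h1 hφ)).2
    have h5 : ram hex.choose = e' := (LiesOver.unique (hres _) h1).2
    have h6 : avg Φ D' Q = avg Φ D' hex.choose := by
      rw [← h3, avg_comap D' _ hφ]
    have h7 : D P = (M * avg Φ D' hex.choose) / (ram hex.choose) := dif_pos hex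
    rw [h7, h6, h4, ← h5, Int.mul_ediv_cancel' (hdvd _ h2)]
  refine ⟨M, hM1, D, ?_, hD⟩
  refine (hT.image res).subset ?_
  rintro P ⟨hP, h0⟩
  obtain ⟨Q, e, h⟩ := exists_ext π hy' hn hn' P
  have hQ : IsPrimeDivisor y' Q := (hQt.map Q P e h).2 hP
  refine ⟨Q, ⟨hQ, fun h1 => h0 ?_⟩, (LiesOver.unique (hres Q) h).1⟩
  have h2 := hD Q P e hQ h
  rw [h1, mul_zero] at h2
  rcases mul_eq_zero.1 h2 with h3 | h3
  · have := h.1
    omega
  · exact h3

/-- the descended divisor is effective if the divisor is -/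
theorem eff_down (hy' : NormalModel y') (hn : Algebra.trdeg ℂ K = n)
    (hn' : Algebra.trdeg ℂ K' = n) (hQt : IsQuot π Φ y y') [Fintype Φ] {D' : Place ℂ K' → ℤ}
    (h0 : ∀ Q, IsPrimeDivisor y' Q → 0 ≤ D' Q) {M : ℕ} {D : Place ℂ K → ℤ}
    (hD : ∀ Q P e, IsPrimeDivisor y' Q → LiesOver π Q P e → (e : ℤ) * D P = M * avg Φ D' Q)
    {P : Place ℂ K} (hP : IsPrimeDivisor y P) : 0 ≤ D P := by
  obtain ⟨Q, e, h⟩ := exists_ext π hy' hn hn' P
  have hQ : IsPrimeDivisor y' Q := (hQt.map Q P e h).2 hP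
  have h1 := hD Q P e hQ h
  have h2 : 0 ≤ avg Φ D' Q :=
    Finset.sum_nonneg fun φ _ => h0 _ ((prime_comap hy' (hQt.aut φ φ.2)).2 hQ)
  have h3 : 0 ≤ (e : ℤ) * D P := by
    rw [h1]
    positivity
  have h4 := h.1
  exact nonneg_of_mul_nonneg_right h3 (by omega)

/-- **The descended divisor is base point free if the divisor is.** -/
theorem free_down (hy' : NormalModel y') (hn : Algebra.trdeg ℂ K = n)
    (hn' : Algebra.trdeg ℂ K' = n) (hQt : IsQuot π Φ y y') [Fintype Φ] {D' : Place ℂ K' → ℤ}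
    (hfree : IsFree y' n D') {M : ℕ} (hM : 1 ≤ M) {D : Place ℂ K → ℤ}
    (hfin : {P | IsPrimeDivisor y P ∧ D P ≠ 0}.Finite)
    (hD : ∀ Q P e, IsPrimeDivisor y' Q → LiesOver π Q P e → (e : ℤ) * D P = M * avg Φ D' Q) :
    IsFree y n D := by
  classical
  refine ⟨hfin, fun R hR => ?_⟩
  obtain ⟨R', e', hR'⟩ := exists_ext π hy' hn hn' R
  have hR'd : Divisorial n R' := by
    let _ := π.toRingHom.toAlgebra
    have hst : IsScalarTower ℂ K K' :=
      IsScalarTower.of_algebraMap_eq fun c => (π.commutes c).symm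
    have hfd : FiniteDimensional K K' := fd π hy' hn hn'
    exact divisorial_up (K := K) (L := K') (e := e') hR' hR
  -- the section
  have hcd : ∀ φ : Φ, Divisorial n (comap (φ : K' ≃ₐ[ℂ] K') R') := by
    intro φ
    obtain ⟨u, hu⟩ := hR'd
    refine ⟨fun i => (φ : K' ≃ₐ[ℂ] K').symm (u i), fun F hF => ?_⟩
    have h1 : (φ : K' ≃ₐ[ℂ] K') (MvPolynomial.aeval (fun i => (φ : K' ≃ₐ[ℂ] K').symm (u i)) F)
        = MvPolynomial.aeval u F := by
      have h2 := MvPolynomial.comp_aeval_apply (fun i => (φ : K' ≃ₐ[ℂ] K').symm (u i))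
        ((φ : K' ≃ₐ[ℂ] K') : K' →ₐ[ℂ] K') F
      have h3 : (fun i => ((φ : K' ≃ₐ[ℂ] K') : K' →ₐ[ℂ] K') ((φ : K' ≃ₐ[ℂ] K').symm (u i))) = u :=
        funext fun i => (φ : K' ≃ₐ[ℂ] K').apply_symm_apply (u i)
      rw [h3] at h2
      exact h2
    obtain ⟨h2, h3⟩ := hu F hF
    refine ⟨fun h4 => h2 ?_, ?_⟩
    · rw [← h1, h4, map_zero]
    · rw [comap_ord, h1]
      exact h3
  obtain ⟨f, hf, hgen⟩ := exists_gen hy' hfree (S := Set.range fun φ : Φ =>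
    comap (φ : K' ≃ₐ[ℂ] K') R') (Set.finite_range _) ⟨_, ⟨1, rfl⟩⟩ (by
      rintro _ ⟨φ, rfl⟩
      exact hcd φ)
  obtain ⟨g, hg⟩ := exists_norm hQt.toIsGal f
  have hg0 : g ≠ 0 := by
    rintro rfl
    rw [map_zero] at hg
    exact norm_ne_zero hf.1 hg.symm
  -- the key formula
  have key : ∀ Q P e, IsPrimeDivisor y' Q → LiesOver π Q P e →
      (e : ℤ) * (P.ord (g ^ M) + D P) = M * ∑ φ : Φ, ((comap (φ : K' ≃ₐ[ℂ] K') Q).ord f +
        D' (comap (φ : K' ≃ₐ[ℂ] K') Q)) := by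
    intro Q P e hQ h
    have h1 := ord_norm (Φ := Φ) Q hf.1
    rw [← hg, h.2 g] at h1
    rw [P.ord_pow, mul_add, hD Q P e hQ h, Finset.sum_add_distrib, ← h1]
    unfold avg
    ring
  have hpr : ∀ Q P e, LiesOver π Q P e → IsPrimeDivisor y P → ∀ φ : Φ,
      IsPrimeDivisor y' (comap (φ : K' ≃ₐ[ℂ] K') Q) := by
    intro Q P e h hP φ
    exact (prime_comap hy' (hQt.aut φ φ.2)).2 ((hQt.map Q P e h).2 hP)
  refine ⟨g ^ M, pow_ne_zero _ hg0, fun P hP => ?_, fun P hP hPR => ?_⟩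
  · obtain ⟨Q, e, h⟩ := exists_ext π hy' hn hn' P
    have hQ : IsPrimeDivisor y' Q := (hQt.map Q P e h).2 hP
    have h1 := key Q P e hQ h
    have h2 : 0 ≤ ∑ φ : Φ, ((comap (φ : K' ≃ₐ[ℂ] K') Q).ord f +
        D' (comap (φ : K' ≃ₐ[ℂ] K') Q)) := Finset.sum_nonneg fun φ _ => hf.2 _ (hpr Q P e h hP φ)
    have h3 : 0 ≤ (e : ℤ) * (P.ord (g ^ M) + D P) := by
      rw [h1]
      positivity
    have h4 := h.1
    exact nonneg_of_mul_nonneg_right h3 (by omega)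
  · obtain ⟨Q, e, h⟩ := exists_ext π hy' hn hn' P
    have hQ : IsPrimeDivisor y' Q := (hQt.map Q P e h).2 hP
    obtain ⟨ψ, hψ, hthr⟩ := exists_through hy' hQt hPR h hR'
    have h1 := key Q P e hQ h
    have h2 : ∑ φ : Φ, ((comap (φ : K' ≃ₐ[ℂ] K') Q).ord f +
        D' (comap (φ : K' ≃ₐ[ℂ] K') Q)) = 0 := by
      refine Finset.sum_eq_zero fun φ _ => ?_
      refine hgen (comap ((⟨ψ, hψ⟩ * φ : Φ) : K' ≃ₐ[ℂ] K') R') ⟨_, rfl⟩ _ (hpr Q P e h hP φ) ?_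
      have h3 := through_comap (hQt.aut φ φ.2) hthr
      rwa [← comap_mul] at h3
    rw [h2, mul_zero] at h1
    rcases mul_eq_zero.1 h1 with h3 | h3
    · have := h.1
      omega
    · exact h3

/-- the pull back of a base point free divisor is base point free -/
theorem free_up (hy' : NormalModel y') (hn : Algebra.trdeg ℂ K = n)
    (hn' : Algebra.trdeg ℂ K' = n) (hQt : IsQuot π Φ y y') {D : Place ℂ K → ℤ}
    (hfree : IsFree y n D) : IsFree y' n (pbd π D) := by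
  refine ⟨pbd_fin hy' hn hn' hQt.map hfree.1, fun R' hR' => ?_⟩
  obtain ⟨R, e, hR⟩ := exists_res π hy' hn hn' R'
  have hRd : Divisorial n R := by
    let _ := π.toRingHom.toAlgebra
    have hst : IsScalarTower ℂ K K' :=
      IsScalarTower.of_algebraMap_eq fun c => (π.commutes c).symm
    have hfd : FiniteDimensional K K' := fd π hy' hn hn'
    exact divisorial_down (K := K) (L := K') (e := e) hR hR'
  obtain ⟨f, hf0, hf, hgen⟩ := hfree.2 R hRd
  refine ⟨π f, by rwa [Ne, map_eq_zero], fun Q hQ => ?_, fun Q hQ hQR => ?_⟩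
  · obtain ⟨P, e, h⟩ := exists_res π hy' hn hn' Q
    have hP := (hQt.map Q P e h).1 hQ
    rw [pbd_eq D h, h.2 f]
    have h1 := hf P hP
    have h2 : (0 : ℤ) ≤ e * (P.ord f + D P) := mul_nonneg (Int.natCast_nonneg e) h1
    linarith
  · obtain ⟨P, e₁, h⟩ := exists_res π hy' hn hn' Q
    have hP := (hQt.map Q P e₁ h).1 hQ
    have hPR : Through y P R := by
      intro a ha
      have h1 := hQR _ ((hQt.loc R' R e hR a).1 ha)
      by_cases ha0 : a = 0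
      · exact Or.inl ha0
      have h2 := (Q.reg_iff (by rwa [Ne, map_eq_zero])).1 h1
      rw [h.2 a] at h2
      have h3 := h.1
      exact Or.inr (nonneg_of_mul_nonneg_right h2 (by omega))
    rw [pbd_eq D h, h.2 f]
    have h1 := hgen P hP hPR
    rw [← mul_add, h1, mul_zero]

end Div

end Pool.Agent.P8H34
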