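import Pool.Agent.N110.CC.HRes
import Pool.Agent.P8H34.Defs

/-!
# Places in Galois extensions of function fields
-/

set_option autoImplicit false
set_option linter.overlappingInstances false
set_option linter.unusedSectionVars false

open FF Pool.Agent.W602.GT Pool.Agent.Y172 Pool.Agent.R887
open Pool.Agent.N110 Pool.Agent.N110.CC

namespace Pool.Agent.P8H34

section Approx

variable {k L : Type*} [Field k] [Field L] [Algebra k L]

open scoped Classical in
/-- the absolute value of a place -/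
noncomputable def absv (P : Place k L) : AbsoluteValue L ℝ where
  toFun f := if f = 0 then 0 else (2 : ℝ) ^ (-(P.ord f))
  map_mul' f g := by
    by_cases hf : f = 0
    · simp [hf]
    by_cases hg : g = 0
    · simp [hg]
    rw [if_neg (mul_ne_zero hf hg), if_neg hf, if_neg hg, P.ord_mul hf hg, neg_add,
      zpow_add₀ two_ne_zero]
  nonneg' f := by
    split_ifs
    · exact le_rfl
    · positivity
  eq_zero' f := by
    by_cases hf : f = 0
    · simp [hf]
    · rw [if_neg hf]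
      constructor
      · intro h
        have : (0 : ℝ) < (2 : ℝ) ^ (-(P.ord f)) := by positivity
        exact absurd h this.ne'
      · intro h
        exact absurd h hf
  add_le' f g := by
    by_cases hf : f = 0
    · simp [hf]
    by_cases hg : g = 0
    · simp [hg]
    by_cases hfg : f + g = 0
    · rw [if_pos hfg, if_neg hf, if_neg hg]
      positivity
    · rw [if_neg hfg, if_neg hf, if_neg hg]
      have h := P.ord_add hf hg hfg
      rcases min_le_iff.1 h with h1 | h1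
      · have h2 : (2 : ℝ) ^ (-(P.ord (f + g))) ≤ (2 : ℝ) ^ (-(P.ord f)) :=
          zpow_le_zpow_right₀ one_le_two (by omega)
        have h3 : (0 : ℝ) < (2 : ℝ) ^ (-(P.ord g)) := by positivity
        linarith
      · have h2 : (2 : ℝ) ^ (-(P.ord (f + g))) ≤ (2 : ℝ) ^ (-(P.ord g)) :=
          zpow_le_zpow_right₀ one_le_two (by omega)
        have h3 : (0 : ℝ) < (2 : ℝ) ^ (-(P.ord f)) := by positivity
        linarith

theorem absv_of_ne (P : Place k L) {f : L} (hf : f ≠ 0) :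
    absv P f = (2 : ℝ) ^ (-(P.ord f)) := by
  classical
  show (if f = 0 then (0 : ℝ) else (2 : ℝ) ^ (-(P.ord f))) = _
  rw [if_neg hf]

theorem one_lt_absv (P : Place k L) {f : L} (h : 1 < absv P f) : f ≠ 0 ∧ P.ord f < 0 := by
  have hf : f ≠ 0 := by
    rintro rfl
    rw [map_zero] at h
    linarith
  refine ⟨hf, ?_⟩
  rw [absv_of_ne P hf] at h
  by_contra hcon
  push Not at hcon
  have h2 : (2 : ℝ) ^ (-(P.ord f)) ≤ (2 : ℝ) ^ (0 : ℤ) :=
    zpow_le_zpow_right₀ one_le_two (by omega)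
  rw [zpow_zero] at h2
  linarith

theorem absv_lt_one (P : Place k L) {f : L} (hf : f ≠ 0) (h : absv P f < 1) : 0 < P.ord f := by
  rw [absv_of_ne P hf] at h
  by_contra hcon
  push Not at hcon
  have h2 : (2 : ℝ) ^ (0 : ℤ) ≤ (2 : ℝ) ^ (-(P.ord f)) :=
    zpow_le_zpow_right₀ one_le_two (by omega)
  rw [zpow_zero] at h2
  linarith

theorem absv_le_one (P : Place k L) {f : L} (hf : f ≠ 0) : absv P f ≤ 1 ↔ 0 ≤ P.ord f := by
  rw [absv_of_ne P hf]
  constructor
  · intro h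
    by_contra hcon
    push Not at hcon
    have h2 : (2 : ℝ) ^ (1 : ℤ) ≤ (2 : ℝ) ^ (-(P.ord f)) :=
      zpow_le_zpow_right₀ one_le_two (by omega)
    rw [zpow_one] at h2
    linarith
  · intro h
    have h2 : (2 : ℝ) ^ (-(P.ord f)) ≤ (2 : ℝ) ^ (0 : ℤ) :=
      zpow_le_zpow_right₀ one_le_two (by omega)
    rwa [zpow_zero] at h2

/-- **Separation.** A function which vanishes at `Q` and is a unit at finitely many other places. -/
theorem exists_sep {S : Set (Place k L)} (hS : S.Finite) {Q : Place k L} (hQ : Q ∈ S) :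
    ∃ w : L, w ≠ 0 ∧ 0 < Q.ord w ∧ ∀ Q' ∈ S, Q' ≠ Q → Q'.ord w = 0 := by
  classical
  have := hS.to_subtype
  obtain ⟨a, ha, hother⟩ := AbsoluteValue.exists_one_lt_lt_one_pi_of_not_isEquiv
    (v := fun i : S => absv i.1) (fun i => by
      obtain ⟨t, ht0, ht⟩ := i.1.surj
      refine ⟨t, ht0, ?_⟩
      show absv i.1 t ≠ 1
      rw [absv_of_ne _ ht0, ht]
      norm_num) (by
      intro i j hij h
      apply hij
      apply Subtype.ext
      apply Place.eq_of_le
      intro f hf h0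
      have h1 := (h f 1).1 (by
        show absv i.1 f ≤ absv i.1 1
        rw [map_one]
        exact (absv_le_one _ hf).2 h0)
      change absv j.1 f ≤ absv j.1 1 at h1
      rw [map_one] at h1
      exact (absv_le_one _ hf).1 h1) ⟨Q, hQ⟩
  obtain ⟨ha0, haQ⟩ := one_lt_absv Q ha
  obtain ⟨h1, h2⟩ := Q.ord_add_eq ha0 one_ne_zero (by rw [Q.ord_one]; exact haQ)
  refine ⟨(a + 1)⁻¹, inv_ne_zero h1, ?_, fun Q' hQ' hne => ?_⟩
  · rw [Q.ord_inv, h2]
    omega
  · have h3 := absv_lt_one Q' ha0 (hother ⟨Q', hQ'⟩ fun h => hne (congrArg Subtype.val h))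
    obtain ⟨h4, h5⟩ := Q'.ord_add_eq (f := 1) (g := a) one_ne_zero ha0 (by
      rw [Q'.ord_one]
      exact h3)
    rw [Q'.ord_inv, add_comm, h5, Q'.ord_one, neg_zero]

end Approx

section Gal

variable {K K' : Type} [Field K] [Algebra ℂ K] [Field K'] [Algebra ℂ K']

variable {π : K →ₐ[ℂ] K'} {Φ : Subgroup (K' ≃ₐ[ℂ] K')}

theorem LiesOver.comap {Q : Place ℂ K'} {P : Place ℂ K} {e : ℕ} (hG : IsGal π Φ)
    (h : LiesOver π Q P e) {φ : K' ≃ₐ[ℂ] K'} (hφ : φ ∈ Φ) : LiesOver π (comap φ Q) P e := by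
  refine ⟨h.1, fun f => ?_⟩
  rw [comap_ord, (hG.fixed (π f)).2 ⟨f, rfl⟩ φ hφ]
  exact h.2 f

theorem LiesOver.unique {Q : Place ℂ K'} {P P' : Place ℂ K} {e e' : ℕ}
    (h : LiesOver π Q P e) (h' : LiesOver π Q P' e') : P = P' ∧ e = e' := by
  have hP : P = P' := by
    apply Place.eq_of_le
    intro f hf h0
    have h1 := h.2 f
    have h2 := h'.2 f
    have h3 := h.1
    have h4 := h'.1
    rw [h1] at h2
    have h5 : (0 : ℤ) ≤ e * P.ord f := by positivity
    rw [h2] at h5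
    have h6 : (0 : ℤ) < e' := by omega
    exact nonneg_of_mul_nonneg_right h5 h6
  subst hP
  refine ⟨rfl, ?_⟩
  obtain ⟨t, ht0, ht⟩ := P.surj
  have h1 := h.2 t
  have h2 := h'.2 t
  rw [ht] at h1 h2
  omega

open scoped Classical in
/-- the norm -/
theorem exists_norm (hG : IsGal π Φ) [Fintype Φ] (f : K') :
    ∃ g : K, π g = ∏ φ : Φ, (φ : K' ≃ₐ[ℂ] K') f := by
  rw [← hG.fixed]
  intro ψ hψ
  rw [map_prod]
  exact Equiv.prod_comp (Equiv.mulLeft (⟨ψ, hψ⟩ : Φ)) fun φ : Φ => (φ : K' ≃ₐ[ℂ] K') f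

theorem ord_prod {ι : Type*} (Q : Place ℂ K') (s : Finset ι) (f : ι → K') (hf : ∀ i ∈ s, f i ≠ 0) :
    Q.ord (∏ i ∈ s, f i) = ∑ i ∈ s, Q.ord (f i) := by
  classical
  induction s using Finset.induction_on with
  | empty => rw [Finset.prod_empty, Finset.sum_empty, Q.ord_one]
  | insert a s ha ih =>
    rw [Finset.prod_insert ha, Finset.sum_insert ha, Q.ord_mul (hf a (Finset.mem_insert_self _ _))
      (Finset.prod_ne_zero_iff.2 fun i hi => hf i (Finset.mem_insert_of_mem hi)),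
      ih fun i hi => hf i (Finset.mem_insert_of_mem hi)]

theorem norm_ne_zero [Fintype Φ] {f : K'} (hf : f ≠ 0) : ∏ φ : Φ, (φ : K' ≃ₐ[ℂ] K') f ≠ 0 :=
  Finset.prod_ne_zero_iff.2 fun φ _ => by rwa [Ne, map_eq_zero]

theorem ord_norm [Fintype Φ] (Q : Place ℂ K') {f : K'} (hf : f ≠ 0) :
    Q.ord (∏ φ : Φ, (φ : K' ≃ₐ[ℂ] K') f) = ∑ φ : Φ, (comap (φ : K' ≃ₐ[ℂ] K') Q).ord f := by
  rw [ord_prod Q _ _ fun φ _ => by rwa [Ne, map_eq_zero]]
  rfl

/-- **Transitivity.** The Galois group acts transitively on the places over a place. -/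
theorem transitive (hG : IsGal π Φ) {Q₁ Q₂ : Place ℂ K'} {P : Place ℂ K} {e₁ e₂ : ℕ}
    (h₁ : LiesOver π Q₁ P e₁) (h₂ : LiesOver π Q₂ P e₂) : ∃ φ ∈ Φ, comap φ Q₁ = Q₂ := by
  classical
  have := hG.finite
  have := Fintype.ofFinite Φ
  by_contra hcon
  push Not at hcon
  let S : Set (Place ℂ K') := Set.range (fun φ : Φ => comap (φ : K' ≃ₐ[ℂ] K') Q₁) ∪
    Set.range fun φ : Φ => comap (φ : K' ≃ₐ[ℂ] K') Q₂
  have hS : S.Finite := (Set.finite_range _).union (Set.finite_range _)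
  have h1 : comap 1 Q₂ = Q₂ := Place.ext (funext fun _ => rfl)
  have hQ₂ : Q₂ ∈ S := Or.inr ⟨1, h1⟩
  obtain ⟨w, hw0, hw, hw'⟩ := exists_sep hS hQ₂
  obtain ⟨g, hg⟩ := exists_norm hG w
  have hn1 := ord_norm (Φ := Φ) Q₁ hw0
  have hn2 := ord_norm (Φ := Φ) Q₂ hw0
  rw [← hg, h₁.2 g] at hn1
  rw [← hg, h₂.2 g] at hn2
  have h3 : ∑ φ : Φ, (comap (φ : K' ≃ₐ[ℂ] K') Q₁).ord w = 0 :=
    Finset.sum_eq_zero fun φ _ => hw' _ (Or.inl ⟨φ, rfl⟩) (hcon φ φ.2)
  have h4 : 0 < ∑ φ : Φ, (comap (φ : K' ≃ₐ[ℂ] K') Q₂).ord w := by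
    refine Finset.sum_pos' (fun φ _ => ?_) ⟨1, Finset.mem_univ _, ?_⟩
    · by_cases h : comap (φ : K' ≃ₐ[ℂ] K') Q₂ = Q₂
      · rw [h]
        exact hw.le
      · exact (hw' _ (Or.inr ⟨φ, rfl⟩) h).ge
    · show 0 < (comap 1 Q₂).ord w
      rw [h1]
      exact hw
  rw [h3] at hn1
  have h5 : P.ord g = 0 := by
    rcases mul_eq_zero.1 hn1 with h | h
    · have := h₁.1
      omega
    · exact h
  rw [h5, mul_zero] at hn2
  omega

end Gal

section Places

variable {K K' : Type} [Field K] [Algebra ℂ K] [Field K'] [Algebra ℂ K'] {N N' n : ℕ}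
  {y : Fin (N + 1) → K} {y' : Fin (N' + 1) → K'} (π : K →ₐ[ℂ] K')

theorem fd (hy' : NormalModel y') (hn : Algebra.trdeg ℂ K = n) (hn' : Algebra.trdeg ℂ K' = n) :
    let _ := π.toRingHom.toAlgebra
    FiniteDimensional K K' := by
  let _ := π.toRingHom.toAlgebra
  have hess' := hy'.ess
  have hst : IsScalarTower ℂ K K' :=
    IsScalarTower.of_algebraMap_eq fun c => (π.commutes c).symm
  exact finite_map hn hn'

/-- restriction of places -/
theorem exists_res (hy' : NormalModel y') (hn : Algebra.trdeg ℂ K = n)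
    (hn' : Algebra.trdeg ℂ K' = n) (Q : Place ℂ K') : ∃ P e, LiesOver π Q P e := by
  let _ := π.toRingHom.toAlgebra
  have hst : IsScalarTower ℂ K K' :=
    IsScalarTower.of_algebraMap_eq fun c => (π.commutes c).symm
  have hfd : FiniteDimensional K K' := fd π hy' hn hn'
  exact ⟨bel K Q, ram K Q, over_bel K Q⟩

/-- extension of places -/
theorem exists_ext (hy' : NormalModel y') (hn : Algebra.trdeg ℂ K = n)
    (hn' : Algebra.trdeg ℂ K' = n) (P : Place ℂ K) : ∃ Q e, LiesOver π Q P e := by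
  let _ := π.toRingHom.toAlgebra
  have hst : IsScalarTower ℂ K K' :=
    IsScalarTower.of_algebraMap_eq fun c => (π.commutes c).symm
  have hfd : FiniteDimensional K K' := fd π hy' hn hn'
  obtain ⟨S, T, -, h2, h3⟩ := exists_places_over (K' := K') P
  have h4 : S.Nonempty := by
    rw [Finset.nonempty_iff_ne_empty]
    rintro rfl
    rw [Finset.sum_empty] at h3
    have := Module.finrank_pos (R := K) (M := K')
    omega
  obtain ⟨Q, hQ⟩ := h4
  obtain ⟨e, h, -⟩ := h2 Q hQ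
  exact ⟨Q, e, h⟩

/-- finitely many places over a finite set of places -/
theorem finite_ext (hy' : NormalModel y') (hn : Algebra.trdeg ℂ K = n)
    (hn' : Algebra.trdeg ℂ K' = n) {S : Set (Place ℂ K)} (hS : S.Finite) :
    {Q : Place ℂ K' | ∃ P ∈ S, ∃ e, LiesOver π Q P e}.Finite := by
  let _ := π.toRingHom.toAlgebra
  have hst : IsScalarTower ℂ K K' :=
    IsScalarTower.of_algebraMap_eq fun c => (π.commutes c).symm
  have hfd : FiniteDimensional K K' := fd π hy' hn hn'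
  refine (finite_bel (K := K) (L := K') hS).subset ?_
  rintro Q ⟨P, hP, e, h⟩
  show bel K Q ∈ S
  rw [(bel_eq K (Q := Q) (P := P) (e := e) h).1]
  exact hP

end Places

end Pool.Agent.P8H34
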