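import Pool.Agent.P8H34.Down

/-!
# The pull back of numerical classes to a finite cover
-/

set_option autoImplicit false
set_option linter.overlappingInstances false
set_option linter.unusedSectionVars false

open FF Pool.Agent.W602.GT Pool.Agent.Y172 Pool.Agent.R887
open Pool.Agent.N110 Pool.Agent.N110.CC Pool.Agent.N492.PA Pool.Agent.N110.NV
open Pool.Agent.N165.KM (IntL)

namespace Pool.Agent.P8H34

section

variable {K K' : Type} [Field K] [Algebra ℂ K] [Field K'] [Algebra ℂ K'] {N N' n ρ ρ' : ℕ}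
  {y : Fin (N + 1) → K} {y' : Fin (N' + 1) → K'} {π : K →ₐ[ℂ] K'}
  {c : Place ℂ K → Fin ρ → ℤ} {c' : Place ℂ K' → Fin ρ' → ℤ}

theorem pbd_add (D D' : Place ℂ K → ℚ) (Q : Place ℂ K') :
    pbd π (fun P => D P + D' P) Q = pbd π D Q + pbd π D' Q := by
  unfold pbd
  split_ifs
  · ring
  · simp

theorem pbd_smul (D : Place ℂ K → ℚ) (r : ℚ) (Q : Place ℂ K') :
    pbd π (fun P => r * D P) Q = r * pbd π D Q := by
  unfold pbd
  split_ifs
  · ring
  · simp

theorem pbd_sum {ι : Type*} (s : Finset ι) (D : ι → Place ℂ K → ℚ) (Q : Place ℂ K') :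
    pbd π (fun P => ∑ i ∈ s, D i P) Q = ∑ i ∈ s, pbd π (D i) Q := by
  unfold pbd
  split_ifs
  · rw [Finset.mul_sum]
  · simp

theorem pbd_neg (D : Place ℂ K → ℚ) (Q : Place ℂ K') :
    pbd π (fun P => -D P) Q = -pbd π D Q := by
  unfold pbd
  split_ifs
  · ring
  · simp

/-- the pull back of a pseudo-effective divisor -/
theorem psef_up (hy : NormalModel y) (hy' : NormalModel y') (hn : Algebra.trdeg ℂ K = n)
    (hn' : Algebra.trdeg ℂ K' = n) (hn0 : 0 < n) (hmap : FiniteMap π y y') {L : Place ℂ K → ℚ}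
    (hL : {P | IsPrimeDivisor y P ∧ L P ≠ 0}.Finite) (h : PsefD y L) : PsefD y' (pbd π L) := by
  obtain ⟨L', hL', hrel, h1⟩ := Pool.Agent.N340.CC.leafPSUP K K' N N' n y y' hy hy' hn hn' hn0 π
    hmap L hL
  intro i hi q hq
  obtain ⟨m, hm, f, hf, h2⟩ := h1 h i hi q hq
  refine ⟨m, hm, f, hf, fun Q l hQ hl => ?_⟩
  obtain ⟨P, e, hPe⟩ := exists_res π hy' hn hn' Q
  have h3 := h2 Q l hQ hl
  rwa [hrel Q P e hQ hPe, ← pbd_eq L hPe] at h3

/-- the pull back of a divisor is pseudo-effective only if the divisor is -/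
theorem psef_dn (hy : NormalModel y) (hy' : NormalModel y') (hn : Algebra.trdeg ℂ K = n)
    (hn' : Algebra.trdeg ℂ K' = n) (hn0 : 0 < n) (hmap : FiniteMap π y y') {L : Place ℂ K → ℚ}
    (h : PsefD y' (pbd π L)) : PsefD y L :=
  Pool.Agent.N701.CC.leafPSDN Pool.Agent.N832.CC.leafNORM Pool.Agent.N252.CC.leafPUSH
    K K' N N' n y y' hy hy' hn hn' hn0 π hmap L (pbd π L) (fun _ _ _ _ hl => pbd_eq L hl) h

theorem class_zero (hy : NormalModel y) (hc : NumClasses y c) {L : Place ℂ K → ℚ}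
    (hL : {P | IsPrimeDivisor y P ∧ L P ≠ 0}.Finite) (h1 : PsefD y L)
    (h2 : PsefD y (fun P => -L P)) : cls y (cQ c) L = 0 := by
  have h3 := Pool.Agent.N618.CC.leafPSCL K N ρ y hy (cQ c) hc.principal L hL h1
  have h4 := Pool.Agent.N618.CC.leafPSCL K N ρ y hy (cQ c) hc.principal _ (fin_neg hL) h2
  rw [cls_neg, toR_neg] at h4
  have h5 := (pc_eff hc).pointed _ h3 h4
  exact toR_inj (h5.trans (by funext i; simp [toR]))

/-- divisors of class zero have pull backs of class zero, and conversely -/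
theorem zero_iff (hy : NormalModel y) (hy' : NormalModel y') (hn : Algebra.trdeg ℂ K = n)
    (hn' : Algebra.trdeg ℂ K' = n) (hn0 : 0 < n) (hmap : FiniteMap π y y')
    (hc : NumClasses y c) (hc' : NumClasses y' c') {L : Place ℂ K → ℚ}
    (hL : {P | IsPrimeDivisor y P ∧ L P ≠ 0}.Finite) :
    cls y (cQ c) L = 0 ↔ cls y' (cQ c') (pbd π L) = 0 := by
  have hL' := pbd_fin (A := ℚ) hy' hn hn' hmap hL
  have e1 : pbd π (fun P => -L P) = fun Q => -pbd π L Q := funext fun Q => pbd_neg L Q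
  constructor
  · intro h0
    refine class_zero hy' hc' hL' (psef_up hy hy' hn hn' hn0 hmap hL (psef_of_zero hc hL h0)) ?_
    rw [← e1]
    exact psef_up hy hy' hn hn' hn0 hmap (fin_neg hL) (psef_of_zero hc (fin_neg hL) (by
      rw [cls_neg, h0, neg_zero]))
  · intro h0
    refine class_zero hy hc hL (psef_dn hy hy' hn hn' hn0 hmap (psef_of_zero hc' hL' h0)) ?_
    refine psef_dn hy hy' hn hn' hn0 hmap ?_
    rw [e1]
    exact psef_of_zero hc' (fin_neg hL') (by rw [cls_neg, h0, neg_zero])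

/-- the pull back of rational classes -/
theorem exists_pQ (hy : NormalModel y) (hy' : NormalModel y') (hn : Algebra.trdeg ℂ K = n)
    (hn' : Algebra.trdeg ℂ K' = n) (hn0 : 0 < n) (hmap : FiniteMap π y y')
    (hc : PicardBasis y c) (hc' : NumClasses y' c') :
    ∃ p : (Fin ρ → ℚ) →ₗ[ℚ] (Fin ρ' → ℚ), Function.Injective p ∧
      ∀ L : Place ℂ K → ℚ, {P | IsPrimeDivisor y P ∧ L P ≠ 0}.Finite →
        p (cls y (cQ c) L) = cls y' (cQ c') (pbd π L) := by
  classical
  choose L hL hLc using exists_div hc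
  let p : (Fin ρ → ℚ) →ₗ[ℚ] (Fin ρ' → ℚ) :=
    { toFun := fun q => cls y' (cQ c') (pbd π (L q))
      map_add' := by
        intro a b
        have h1 : cls y (cQ c) (fun P => L (a + b) P + (-1) * (L a P + L b P)) = 0 := by
          rw [cls_add (hL _) (Fin0.smul (Fin0.add (hL a) (hL b)) (-1)), cls_smul,
            cls_add (hL a) (hL b), hLc, hLc, hLc, neg_one_smul, add_neg_cancel]
        rw [zero_iff hy hy' hn hn' hn0 hmap hc.numClasses hc'
          (Fin0.add (hL _) (Fin0.smul (Fin0.add (hL a) (hL b)) (-1)))] at h1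
        have h2 : pbd π (fun P => L (a + b) P + (-1) * (L a P + L b P)) =
            fun Q => pbd π (L (a + b)) Q + (-1) * (pbd π (L a) Q + pbd π (L b) Q) := by
          funext Q
          rw [pbd_add, pbd_smul, pbd_add]
        have h3 := fun q => pbd_fin (A := ℚ) hy' hn hn' hmap (hL q)
        rw [h2, cls_add (h3 _) (Fin0.smul (Fin0.add (h3 a) (h3 b)) (-1)), cls_smul,
          cls_add (h3 a) (h3 b), neg_one_smul, ← sub_eq_add_neg, sub_eq_zero] at h1
        exact h1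
      map_smul' := by
        intro r a
        have h1 : cls y (cQ c) (fun P => L (r • a) P + (-r) * L a P) = 0 := by
          rw [cls_add (hL _) (Fin0.smul (hL a) (-r)), cls_smul, hLc, hLc]
          simp
        rw [zero_iff hy hy' hn hn' hn0 hmap hc.numClasses hc'
          (Fin0.add (hL _) (Fin0.smul (hL a) (-r)))] at h1
        have h2 : pbd π (fun P => L (r • a) P + (-r) * L a P) =
            fun Q => pbd π (L (r • a)) Q + (-r) * pbd π (L a) Q := by
          funext Q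
          rw [pbd_add, pbd_smul]
        have h3 := fun q => pbd_fin (A := ℚ) hy' hn hn' hmap (hL q)
        rw [h2, cls_add (h3 _) (Fin0.smul (h3 a) (-r)), cls_smul] at h1
        rw [RingHom.id_apply]
        rw [neg_smul, ← sub_eq_add_neg, sub_eq_zero] at h1
        exact h1 }
  have hp : ∀ M : Place ℂ K → ℚ, {P | IsPrimeDivisor y P ∧ M P ≠ 0}.Finite →
      p (cls y (cQ c) M) = cls y' (cQ c') (pbd π M) := by
    intro M hM
    have h1 : cls y (cQ c) (fun P => L (cls y (cQ c) M) P + (-1) * M P) = 0 := by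
      rw [cls_add (hL _) (Fin0.smul hM (-1)), cls_smul, hLc]
      simp
    rw [zero_iff hy hy' hn hn' hn0 hmap hc.numClasses hc' (Fin0.add (hL _) (Fin0.smul hM (-1)))] at h1
    have h2 : pbd π (fun P => L (cls y (cQ c) M) P + (-1) * M P) =
        fun Q => pbd π (L (cls y (cQ c) M)) Q + (-1) * pbd π M Q := by
      funext Q
      rw [pbd_add, pbd_smul]
    have h3 := fun q => pbd_fin (A := ℚ) hy' hn hn' hmap (hL q)
    have h4 := pbd_fin (A := ℚ) hy' hn hn' hmap hM
    rw [h2, cls_add (h3 _) (Fin0.smul h4 (-1)), cls_smul, neg_one_smul, ← sub_eq_add_neg,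
      sub_eq_zero] at h1
    exact h1
  refine ⟨p, ?_, hp⟩
  rw [injective_iff_map_eq_zero]
  intro q hq
  have h1 := hp (L q) (hL q)
  rw [hLc, hq] at h1
  rw [← hLc q]
  exact (zero_iff hy hy' hn hn' hn0 hmap hc.numClasses hc' (hL q)).2 h1.symm

/-- the real linear map of a rational one -/
noncomputable def realMap (p : (Fin ρ → ℚ) →ₗ[ℚ] (Fin ρ' → ℚ)) : (Fin ρ → ℝ) →ₗ[ℝ] (Fin ρ' → ℝ) :=
  Matrix.toLin' ((LinearMap.toMatrix' p).map (algebraMap ℚ ℝ))

theorem realMap_toR (p : (Fin ρ → ℚ) →ₗ[ℚ] (Fin ρ' → ℚ)) (q : Fin ρ → ℚ) :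
    realMap p (toR q) = toR (p q) := by
  have h1 : p q = (LinearMap.toMatrix' p).mulVec q := by
    rw [← Matrix.toLin'_apply, Matrix.toLin'_toMatrix']
  rw [h1]
  funext i
  rw [realMap, Matrix.toLin'_apply]
  simp [toR, Matrix.mulVec, dotProduct]

theorem realMap_comp {ρ'' : ℕ} (p : (Fin ρ → ℚ) →ₗ[ℚ] (Fin ρ' → ℚ))
    (p' : (Fin ρ' → ℚ) →ₗ[ℚ] (Fin ρ'' → ℚ)) : realMap (p' ∘ₗ p) = realMap p' ∘ₗ realMap p := by
  unfold realMap
  rw [LinearMap.toMatrix'_comp, Matrix.map_mul, Matrix.toLin'_mul]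

theorem realMap_id : realMap (LinearMap.id : (Fin ρ → ℚ) →ₗ[ℚ] (Fin ρ → ℚ)) = LinearMap.id := by
  unfold realMap
  rw [LinearMap.toMatrix'_id, Matrix.map_one _ (map_zero _) (map_one _), Matrix.toLin'_one]

/-- **The pull back of numerical classes** to a finite cover: it is injective with a rational left
inverse. -/
theorem exists_p (hy : NormalModel y) (hy' : NormalModel y') (hn : Algebra.trdeg ℂ K = n)
    (hn' : Algebra.trdeg ℂ K' = n) (hn0 : 0 < n) (hmap : FiniteMap π y y')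
    (hc : PicardBasis y c) (hc' : NumClasses y' c') :
    ∃ (p : (Fin ρ → ℝ) →ₗ[ℝ] (Fin ρ' → ℝ)) (B : (Fin ρ' → ℝ) →ₗ[ℝ] (Fin ρ → ℝ)),
      (∀ x, B (p x) = x) ∧ (∀ z ∈ IntL ρ', ∃ k : ℕ, 1 ≤ k ∧ (k : ℝ) • B z ∈ IntL ρ) ∧
      ∀ D : Place ℂ K → ℤ, {P | IsPrimeDivisor y P ∧ D P ≠ 0}.Finite →
        p (divClass y c D) = divClass y' c' (pbd π D) := by
  classical
  obtain ⟨p, hinj, hp⟩ := exists_pQ hy hy' hn hn' hn0 hmap hc hc'
  obtain ⟨B, hB⟩ := LinearMap.exists_leftInverse_of_injective p (LinearMap.ker_eq_bot.2 hinj)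
  refine ⟨realMap p, realMap B, fun x => ?_, fun z hz => ?_, fun D hD => ?_⟩
  · have h1 : realMap B ∘ₗ realMap p = LinearMap.id := by
      rw [← realMap_comp, hB, realMap_id]
    exact LinearMap.congr_fun h1 x
  · choose m hm using hz
    have h1 : z = toR (fun i => (m i : ℚ)) := by
      funext i
      rw [hm i]
      simp [toR]
    rw [h1, realMap_toR]
    obtain ⟨d, hd⟩ : ∃ d : ℕ, d = ∏ i, (B (fun i => (m i : ℚ)) i).den := ⟨_, rfl⟩
    have hd0 : 0 < d := by
      rw [hd]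
      exact Finset.prod_pos fun i _ => Rat.den_pos _
    refine ⟨d, hd0, fun i => ?_⟩
    obtain ⟨k, hk⟩ : (B (fun i => (m i : ℚ)) i).den ∣ d :=
      hd ▸ Finset.dvd_prod_of_mem _ (Finset.mem_univ i)
    refine ⟨k * (B (fun i => (m i : ℚ)) i).num, ?_⟩
    have h2 := Rat.den_mul_eq_num (B (fun i => (m i : ℚ)) i)
    have h3 : ((d : ℚ) * B (fun i => (m i : ℚ)) i) = k * (B (fun i => (m i : ℚ)) i).num := by
      rw [hk]
      push_cast
      linear_combination (k : ℚ) * h2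
    show (d : ℝ) * ((B (fun i => (m i : ℚ)) i : ℚ) : ℝ) = _
    exact_mod_cast h3
  · rw [Pool.Agent.N681.CC.divClass_eq c hD,
      Pool.Agent.N681.CC.divClass_eq c' (pbd_fin (A := ℤ) hy' hn hn' hmap hD), realMap_toR, hp]
    · congr 2
      funext Q
      exact (pbd_cast π D Q).symm
    · refine hD.subset ?_
      rintro P ⟨hP, h0⟩
      exact ⟨hP, fun h => h0 (by rw [h, Int.cast_zero])⟩

end

end Pool.Agent.P8H34
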